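import Mathlib

/-!
# Banach-Mazur rotation problem, isometries that are compact perturbations of the identity

Project of helper328 (MP_cc72b1_an). Definitions.

THEOREM. Let `E` be a separable infinite-dimensional real Banach space with transitive norm. If some
isometry `T ≠ 1` has `T - 1` compact, then `E` is a Hilbert space.

Outline.
* C. (Baire) for isometries `S` close to `1` in the strong topology, `S T S⁻¹ T⁻¹` is close to `1` in
  norm, and it is not always `1`.  So there are isometries `R n → 1` in norm, `R n ≠ 1`, `R n - 1`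
  compact; `X = lim (R n - 1) / ‖R n - 1‖` is a nonzero skew-Hermitian operator with a kernel on an
  ultrapower `F` of `E`.
* B. `F` has a nonzero skew-Hermitian operator of finite rank.
* A. (algebra) the skew-Hermitian operators of finite rank act so irreducibly that
  `F = ℝ x + {A x}` for every `x ≠ 0`; an invariant quadratic form exists and equals the squared norm.
-/

set_option autoImplicit false

namespace Pool.TH328.BM

/-! ### algebraic part -/

section Alg

variable {F : Type*} [AddCommGroup F] [Module ℝ F]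

/-- Pairs `(A, A')`, where `A` is a noncommutative polynomial in the elements of `g` and `A'` its formal
adjoint (the elements of `g` are thought of as skew). -/
inductive Adj (g : Submodule ℝ (Module.End ℝ F)) : Module.End ℝ F → Module.End ℝ F → Prop
  | base (A : Module.End ℝ F) (h : A ∈ g) : Adj g A (-A)
  | add {A A' B B' : Module.End ℝ F} (h1 : Adj g A A') (h2 : Adj g B B') : Adj g (A + B) (A' + B')
  | smul (c : ℝ) {A A' : Module.End ℝ F} (h : Adj g A A') : Adj g (c • A) (c • A')
  | mul {A A' B B' : Module.End ℝ F} (h1 : Adj g A A') (h2 : Adj g B B') : Adj g (A * B) (B' * A')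

/-- `β` restricted to `M` is an inner product for which the elements of `g` with range in `M` are
skew. -/
structure Good (g : Submodule ℝ (Module.End ℝ F)) (M : Submodule ℝ F) (β : F →ₗ[ℝ] F →ₗ[ℝ] ℝ) :
    Prop where
  symm : ∀ v ∈ M, ∀ w ∈ M, β v w = β w v
  pos : ∀ v ∈ M, v ≠ 0 → 0 < β v v
  skew : ∀ A ∈ g, LinearMap.range A ≤ M → ∀ v ∈ M, ∀ w ∈ M, β (A v) w = - β v (A w)

/-- the hypotheses of the algebraic part -/
structure Hyp (g : Submodule ℝ (Module.End ℝ F)) : Prop where
  br : ∀ A ∈ g, ∀ B ∈ g, A * B - B * A ∈ g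
  fin : ∀ A ∈ g, FiniteDimensional ℝ (LinearMap.range A)
  good : ∀ M : Submodule ℝ F, FiniteDimensional ℝ M → ∃ β : F →ₗ[ℝ] F →ₗ[ℝ] ℝ, Good g M β
  tr : ∀ x y : F, x ≠ 0 → y ≠ 0 → ∃ U : F ≃ₗ[ℝ] F, U x = y ∧ (∀ A ∈ g, U.conj A ∈ g) ∧
    (∀ A ∈ g, U.symm.conj A ∈ g)
  ne : ∃ A ∈ g, A ≠ 0
  inf : ¬ FiniteDimensional ℝ F

end Alg

/-! ### analytic part -/

section An

variable {F : Type*} [NormedAddCommGroup F] [NormedSpace ℝ F]

/-- skew-Hermitian operators: the norm has derivative zero at every `x` in the direction `A x` -/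
def SH (A : F →L[ℝ] F) : Prop := ∀ x : F, HasDerivAt (fun t : ℝ => ‖x + t • A x‖) 0 0

variable (F) in
/-- transitive norm -/
def Trans : Prop := ∀ x y : F, ‖x‖ = 1 → ‖y‖ = 1 → ∃ T : F ≃ₗᵢ[ℝ] F, T x = y

end An

end Pool.TH328.BM
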