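import Pool.Agent.TH328.BM.Stm

/-!
# Pure elements and the tangent space
-/

set_option autoImplicit false

namespace Pool.TH328.BM

open Module

variable {F : Type*} [AddCommGroup F] [Module ℝ F]

theorem Adj.mono {g g' : Submodule ℝ (Module.End ℝ F)} (h : g ≤ g') {A A' : Module.End ℝ F}
    (hA : Adj g A A') : Adj g' A A' := by
  induction hA with
  | base A hA => exact Adj.base A (h hA)
  | add _ _ h1 h2 => exact Adj.add h1 h2
  | smul c _ h1 => exact Adj.smul c h1
  | mul _ _ h1 h2 => exact Adj.mul h1 h2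

theorem Adj.symm' {g : Submodule ℝ (Module.End ℝ F)} {A A' : Module.End ℝ F}
    (hA : Adj g A A') : Adj g A' A := by
  induction hA with
  | base A hA =>
    have := Adj.base (g := g) (-A) (g.neg_mem hA)
    rwa [neg_neg] at this
  | add _ _ h1 h2 => exact Adj.add h1 h2
  | smul c _ h1 => exact Adj.smul c h1
  | mul _ _ h1 h2 => exact Adj.mul h2 h1

/-- the elements of `g` with range in `M` that vanish on `H` -/
def gMH (g : Submodule ℝ (Module.End ℝ F)) (M H : Submodule ℝ F) :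
    Submodule ℝ (Module.End ℝ F) where
  carrier := {A | A ∈ g ∧ (∀ v, A v ∈ M) ∧ ∀ v ∈ H, A v = 0}
  add_mem' := by
    rintro A B ⟨h1, h2, h3⟩ ⟨k1, k2, k3⟩
    refine ⟨g.add_mem h1 k1, fun v => M.add_mem (h2 v) (k2 v), fun v hv => ?_⟩
    rw [LinearMap.add_apply, h3 v hv, k3 v hv, add_zero]
  zero_mem' := ⟨g.zero_mem, fun v => M.zero_mem, fun v _ => rfl⟩
  smul_mem' := by
    rintro c A ⟨h1, h2, h3⟩
    refine ⟨g.smul_mem c h1, fun v => M.smul_mem c (h2 v), fun v hv => ?_⟩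
    rw [LinearMap.smul_apply, h3 v hv, smul_zero]

theorem gMH_le (g : Submodule ℝ (Module.End ℝ F)) (M H : Submodule ℝ F) : gMH g M H ≤ g :=
  fun _ h => h.1

/-- support of an adjoint pair -/
theorem adj_supp {g : Submodule ℝ (Module.End ℝ F)} (hg : Hyp g) {A A' : Module.End ℝ F}
    (hA : Adj g A A') : ∃ R K : Submodule ℝ F, FiniteDimensional ℝ R ∧ FiniteDimensional ℝ (F ⧸ K) ∧
      ∀ M H : Submodule ℝ F, R ≤ M → H ≤ K → Adj (gMH g M H) A A' := by
  induction hA with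
  | base A hA =>
    refine ⟨LinearMap.range A, LinearMap.ker A, hg.fin A hA, ?_, ?_⟩
    · have := hg.fin A hA
      exact LinearEquiv.finiteDimensional (LinearMap.quotKerEquivRange A).symm
    · intro M H hM hH
      refine Adj.base A ⟨hA, fun v => hM (LinearMap.mem_range_self A v), fun v hv => hH hv⟩
  | add _ _ h1 h2 =>
    obtain ⟨R1, K1, a1, b1, c1⟩ := h1
    obtain ⟨R2, K2, a2, b2, c2⟩ := h2
    refine ⟨R1 ⊔ R2, K1 ⊓ K2, inferInstance, ?_, fun M H hM hH =>
      Adj.add (c1 M H (le_sup_left.trans hM) (hH.trans inf_le_left))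
        (c2 M H (le_sup_right.trans hM) (hH.trans inf_le_right))⟩
    have : LinearMap.ker ((K1.mkQ).prod K2.mkQ) = K1 ⊓ K2 := by
      rw [LinearMap.ker_prod, Submodule.ker_mkQ, Submodule.ker_mkQ]
    rw [← this]
    exact LinearEquiv.finiteDimensional (LinearMap.quotKerEquivRange _).symm
  | smul c _ h1 =>
    obtain ⟨R1, K1, a1, b1, c1⟩ := h1
    exact ⟨R1, K1, a1, b1, fun M H hM hH => Adj.smul c (c1 M H hM hH)⟩
  | mul _ _ h1 h2 =>
    obtain ⟨R1, K1, a1, b1, c1⟩ := h1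
    obtain ⟨R2, K2, a2, b2, c2⟩ := h2
    refine ⟨R1 ⊔ R2, K1 ⊓ K2, inferInstance, ?_, fun M H hM hH =>
      Adj.mul (c1 M H (le_sup_left.trans hM) (hH.trans inf_le_left))
        (c2 M H (le_sup_right.trans hM) (hH.trans inf_le_right))⟩
    have : LinearMap.ker ((K1.mkQ).prod K2.mkQ) = K1 ⊓ K2 := by
      rw [LinearMap.ker_prod, Submodule.ker_mkQ, Submodule.ker_mkQ]
    rw [← this]
    exact LinearEquiv.finiteDimensional (LinearMap.quotKerEquivRange _).symm

/-- a complement `H` of a finite-dimensional `M` -/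
theorem exists_MH (R K : Submodule ℝ F) (hR : FiniteDimensional ℝ R)
    (hK : FiniteDimensional ℝ (F ⧸ K)) :
    ∃ M H : Submodule ℝ F, R ≤ M ∧ H ≤ K ∧ FiniteDimensional ℝ M ∧ IsCompl M H := by
  obtain ⟨W, hW⟩ := K.exists_isCompl
  have hWf : FiniteDimensional ℝ W :=
    LinearEquiv.finiteDimensional (Submodule.quotientEquivOfIsCompl K W hW)
  obtain ⟨C, hC⟩ := ((R ⊔ W) ⊓ K).exists_isCompl
  have e1 : (R ⊔ W) ⊓ K ⊔ C ⊓ K = K := by
    rw [← sup_inf_assoc_of_le C (inf_le_right : (R ⊔ W) ⊓ K ≤ K), hC.sup_eq_top, top_inf_eq]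
  refine ⟨R ⊔ W, C ⊓ K, le_sup_left, inf_le_right, inferInstance, ?_⟩
  constructor
  · rw [disjoint_iff]
    have : (R ⊔ W) ⊓ (C ⊓ K) = ((R ⊔ W) ⊓ K) ⊓ C := by
      rw [inf_comm C K, inf_assoc]
    rw [this, hC.inf_eq_bot]
  · rw [codisjoint_iff, eq_top_iff]
    calc ⊤ = K ⊔ W := hW.sup_eq_top.symm
      _ = ((R ⊔ W) ⊓ K ⊔ C ⊓ K) ⊔ W := by rw [e1]
      _ ≤ (R ⊔ W) ⊔ (C ⊓ K) := by
          refine sup_le (sup_le (inf_le_left.trans le_sup_left) le_sup_right)
            (le_sup_right.trans le_sup_left)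

theorem adjMH {g : Submodule ℝ (Module.End ℝ F)} {M H : Submodule ℝ F} {A A' : Module.End ℝ F}
    (hA : Adj (gMH g M H) A A') : (∀ v, A v ∈ M) ∧ (∀ v, A' v ∈ M) ∧ (∀ v ∈ H, A v = 0) ∧
      (∀ v ∈ H, A' v = 0) := by
  induction hA with
  | base A hA =>
    refine ⟨hA.2.1, fun v => M.neg_mem (hA.2.1 v), hA.2.2, fun v hv => ?_⟩
    rw [LinearMap.neg_apply, hA.2.2 v hv, neg_zero]
  | add _ _ h1 h2 =>
    obtain ⟨a1, b1, c1, d1⟩ := h1
    obtain ⟨a2, b2, c2, d2⟩ := h2
    refine ⟨fun v => M.add_mem (a1 v) (a2 v), fun v => M.add_mem (b1 v) (b2 v), fun v hv => ?_,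
      fun v hv => ?_⟩
    · rw [LinearMap.add_apply, c1 v hv, c2 v hv, add_zero]
    · rw [LinearMap.add_apply, d1 v hv, d2 v hv, add_zero]
  | smul c _ h1 =>
    obtain ⟨a1, b1, c1, d1⟩ := h1
    refine ⟨fun v => M.smul_mem c (a1 v), fun v => M.smul_mem c (b1 v), fun v hv => ?_,
      fun v hv => ?_⟩
    · rw [LinearMap.smul_apply, c1 v hv, smul_zero]
    · rw [LinearMap.smul_apply, d1 v hv, smul_zero]
  | mul _ _ h1 h2 =>
    obtain ⟨a1, b1, c1, d1⟩ := h1
    obtain ⟨a2, b2, c2, d2⟩ := h2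
    refine ⟨fun v => a1 _, fun v => b2 _, fun v hv => ?_, fun v hv => ?_⟩
    · rw [Module.End.mul_apply, c2 v hv, map_zero]
    · rw [Module.End.mul_apply, d1 v hv, map_zero]

theorem adjMH_form {g : Submodule ℝ (Module.End ℝ F)} {M H : Submodule ℝ F}
    {A A' : Module.End ℝ F} (hA : Adj (gMH g M H) A A') (M1 : Submodule ℝ F) (hM : M ≤ M1)
    (β : F →ₗ[ℝ] F →ₗ[ℝ] ℝ) (hβ : Good g M1 β) :
    ∀ v ∈ M1, ∀ w ∈ M1, β (A v) w = β v (A' w) := by
  induction hA with
  | base A hA =>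
    intro v hv w hw
    rw [LinearMap.neg_apply, map_neg]
    refine hβ.skew A hA.1 ?_ v hv w hw
    rintro _ ⟨u, rfl⟩
    exact hM (hA.2.1 u)
  | add _ _ h1 h2 =>
    intro v hv w hw
    rw [LinearMap.add_apply, LinearMap.add_apply, map_add, LinearMap.add_apply, map_add,
      h1 v hv w hw, h2 v hv w hw]
  | smul c _ h1 =>
    intro v hv w hw
    rw [LinearMap.smul_apply, LinearMap.smul_apply, map_smul, LinearMap.smul_apply, map_smul,
      h1 v hv w hw]
  | mul ha hb h1 h2 =>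
    intro v hv w hw
    rw [Module.End.mul_apply, Module.End.mul_apply, h1 _ (hM ((adjMH hb).1 v)) w hw,
      h2 v hv _ (hM ((adjMH ha).2.1 w))]

/-- bracket words -/
theorem words {g : Submodule ℝ (Module.End ℝ F)} (hg : Hyp g) {M H : Submodule ℝ F}
    {A A' : Module.End ℝ F} (hA : Adj (gMH g M H) A A') :
    ∀ B ∈ g, ∃ C ∈ g, ∀ v, C v - B (A v) ∈ M := by
  induction hA with
  | base A hA =>
    intro B hB
    refine ⟨B * A - A * B, hg.br B hB A hA.1, fun v => ?_⟩
    have : (B * A - A * B) v - B (A v) = - A (B v) := by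
      rw [LinearMap.sub_apply, Module.End.mul_apply, Module.End.mul_apply]
      abel
    rw [this]
    exact M.neg_mem (hA.2.1 _)
  | add _ _ h1 h2 =>
    intro B hB
    obtain ⟨C1, hC1, k1⟩ := h1 B hB
    obtain ⟨C2, hC2, k2⟩ := h2 B hB
    refine ⟨C1 + C2, g.add_mem hC1 hC2, fun v => ?_⟩
    have := M.add_mem (k1 v) (k2 v)
    rw [LinearMap.add_apply, LinearMap.add_apply, map_add]
    convert this using 1
    abel
  | smul c _ h1 =>
    intro B hB
    obtain ⟨C1, hC1, k1⟩ := h1 B hB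
    refine ⟨c • C1, g.smul_mem c hC1, fun v => ?_⟩
    have := M.smul_mem c (k1 v)
    rw [LinearMap.smul_apply, LinearMap.smul_apply, map_smul, ← smul_sub]
    exact this
  | @mul A A' B B' _ _ h1 h2 =>
    intro D hD
    obtain ⟨C1, hC1, k1⟩ := h1 D hD
    obtain ⟨C2, hC2, k2⟩ := h2 C1 hC1
    refine ⟨C2, hC2, fun v => ?_⟩
    have := M.add_mem (k2 v) (k1 (B v))
    rw [Module.End.mul_apply]
    convert this using 1
    abel

/-- a pure element -/
theorem exists_pure {g : Submodule ℝ (Module.End ℝ F)} (hg : Hyp g) {M H : Submodule ℝ F}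
    (hMf : FiniteDimensional ℝ M) (hMH : IsCompl M H) {e : Module.End ℝ F}
    (he : Adj (gMH g M H) e e) (hee : e * e = e) {y0 : F} (hy0 : e y0 = y0)
    (hinf : ∀ D : Submodule ℝ F, FiniteDimensional ℝ D → ∃ A ∈ g, A y0 ∉ D) :
    ∃ Y ∈ g, (∀ m ∈ M, Y m ∈ H) ∧ (∀ h ∈ H, Y h ∈ M) ∧ (∀ m ∈ M, Y m = Y (e m)) ∧ Y y0 ≠ 0 := by
  classical
  set P : F →ₗ[ℝ] M := Submodule.projectionOnto M H hMH with hP
  -- the elements which are `B e` modulo `M`
  let S : Submodule ℝ (Module.End ℝ F) :=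
    { carrier := {C | C ∈ g ∧ ∃ B ∈ g, ∀ v, C v - B (e v) ∈ M}
      add_mem' := by
        rintro C C' ⟨h1, B, hB, h2⟩ ⟨h1', B', hB', h2'⟩
        refine ⟨g.add_mem h1 h1', B + B', g.add_mem hB hB', fun v => ?_⟩
        have := M.add_mem (h2 v) (h2' v)
        rw [LinearMap.add_apply, LinearMap.add_apply]
        convert this using 1
        abel
      zero_mem' := ⟨g.zero_mem, 0, g.zero_mem, fun v => by simp⟩
      smul_mem' := by
        rintro c C ⟨h1, B, hB, h2⟩
        refine ⟨g.smul_mem c h1, c • B, g.smul_mem c hB, fun v => ?_⟩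
        have := M.smul_mem c (h2 v)
        rw [LinearMap.smul_apply, LinearMap.smul_apply, ← smul_sub]
        exact this }
  let Θ : S →ₗ[ℝ] (M →ₗ[ℝ] M) :=
    { toFun := fun C => P ∘ₗ (C : Module.End ℝ F) ∘ₗ M.subtype
      map_add' := fun C C' => by ext m; simp
      map_smul' := fun c C => by ext m; simp }
  let Ξ : S →ₗ[ℝ] F :=
    { toFun := fun C => (C : Module.End ℝ F) y0 - (P ((C : Module.End ℝ F) y0) : F)
      map_add' := fun C C' => by
        simp only [Submodule.coe_add, LinearMap.add_apply, map_add]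
        abel
      map_smul' := fun c C => by
        simp only [Submodule.coe_smul, LinearMap.smul_apply, map_smul, RingHom.id_apply, smul_sub] }
  have key : ∃ C : S, Θ C = 0 ∧ Ξ C ≠ 0 := by
    by_contra hcon
    push Not at hcon
    have hle : LinearMap.ker Θ ≤ LinearMap.ker Ξ := fun C hC => hcon C hC
    have hfd : FiniteDimensional ℝ (LinearMap.range Ξ) := by
      have h1 : FiniteDimensional ℝ (S ⧸ LinearMap.ker Θ) :=
        Module.Finite.equiv (LinearMap.quotKerEquivRange Θ).symm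
      let f : (S ⧸ LinearMap.ker Θ) →ₗ[ℝ] F := (LinearMap.ker Θ).liftQ Ξ hle
      have h2 : LinearMap.range f = LinearMap.range Ξ := Submodule.range_liftQ _ _ _
      rw [← h2]
      infer_instance
    obtain ⟨B, hB, hBD⟩ := hinf (LinearMap.range Ξ ⊔ M) inferInstance
    obtain ⟨C, hC, hCB⟩ := words hg he B hB
    apply hBD
    have hCS : C ∈ S := ⟨hC, B, hB, hCB⟩
    have h1 : Ξ ⟨C, hCS⟩ ∈ LinearMap.range Ξ := LinearMap.mem_range_self _ _
    have h2 := hCB y0
    rw [hy0] at h2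
    have h3 : B y0 = Ξ ⟨C, hCS⟩ + ((P (C y0) : F) - (C y0 - B y0)) := by
      show B y0 = (C y0 - (P (C y0) : F)) + ((P (C y0) : F) - (C y0 - B y0))
      abel
    rw [h3]
    exact Submodule.add_mem_sup h1 (M.sub_mem (P (C y0)).2 h2)
  obtain ⟨⟨C, hCg, B, hB, hCB⟩, hΘ, hΞ⟩ := key
  have c1 : ∀ m ∈ M, C m ∈ H := by
    intro m hm
    have h1 : P (C m) = 0 := by
      have := LinearMap.congr_fun hΘ ⟨m, hm⟩
      exact this
    rw [hP] at h1
    exact (Submodule.projectionOnto_apply_eq_zero_iff hMH).1 h1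
  refine ⟨C, hCg, c1, ?_, ?_, ?_⟩
  · intro h hh
    have h1 := hCB h
    rw [(adjMH he).2.2.1 h hh, map_zero, sub_zero] at h1
    exact h1
  · intro m hm
    have h1 := hCB m
    have h2 := hCB (e m)
    have h3 : e (e m) = e m := by rw [← Module.End.mul_apply, hee]
    rw [h3] at h2
    have h4 : C m - C (e m) ∈ M := by
      have := M.sub_mem h1 h2
      convert this using 1
      abel
    have h5 : C m - C (e m) ∈ H := H.sub_mem (c1 m hm) (c1 _ ((adjMH he).1 m))
    have h6 := hMH.disjoint.le_bot ⟨h4, h5⟩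
    exact sub_eq_zero.1 ((Submodule.mem_bot ℝ).1 h6)
  · intro h0
    apply hΞ
    show C y0 - (P (C y0) : F) = 0
    rw [h0, map_zero, Submodule.coe_zero, sub_zero]

/-- multiplication of a pure element by a polynomial -/
theorem pure_mul {g : Submodule ℝ (Module.End ℝ F)} (hg : Hyp g) {M H : Submodule ℝ F}
    {A A' : Module.End ℝ F} (hA : Adj (gMH g M H) A A') :
    ∀ Y ∈ g, (∀ m ∈ M, Y m ∈ H) → (∀ h ∈ H, Y h ∈ M) → Y * A + A' * Y ∈ g := by
  induction hA with
  | base A hA =>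
    intro Y hY _ _
    have := hg.br Y hY A hA.1
    rwa [neg_mul, ← sub_eq_add_neg]
  | add _ _ h1 h2 =>
    intro Y hY k1 k2
    have := g.add_mem (h1 Y hY k1 k2) (h2 Y hY k1 k2)
    rw [mul_add, add_mul]
    convert this using 1
    abel
  | smul c _ h1 =>
    intro Y hY k1 k2
    have := g.smul_mem c (h1 Y hY k1 k2)
    rwa [smul_add, ← mul_smul_comm, ← smul_mul_assoc] at this
  | @mul A A' B B' ha hb h1 h2 =>
    intro Y hY k1 k2
    obtain ⟨a1, a2, a3, a4⟩ := adjMH ha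
    obtain ⟨b1, b2, b3, b4⟩ := adjMH hb
    have s1 := h1 Y hY k1 k2
    have p1 : ∀ m ∈ M, (Y * A + A' * Y) m ∈ H := by
      intro m hm
      rw [LinearMap.add_apply, Module.End.mul_apply, Module.End.mul_apply, a4 _ (k1 m hm), add_zero]
      exact k1 _ (a1 m)
    have p2 : ∀ h ∈ H, (Y * A + A' * Y) h ∈ M := by
      intro h hh
      rw [LinearMap.add_apply, Module.End.mul_apply, Module.End.mul_apply, a3 h hh, map_zero,
        zero_add]
      exact a2 _
    have s2 := h2 _ s1 p1 p2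
    have e1 : A' * Y * B = 0 := by
      ext v
      exact a4 _ (k1 _ (b1 v))
    have e2 : B' * (Y * A) = 0 := by
      ext v
      exact b4 _ (k1 _ (a1 v))
    have e3 : (Y * A + A' * Y) * B + B' * (Y * A + A' * Y) = Y * (A * B) + (B' * A') * Y := by
      rw [add_mul, mul_add, e1, e2, add_zero, zero_add, mul_assoc, mul_assoc]
    rwa [e3] at s2

/-- **Tangent space.** -/
theorem tangent {g : Submodule ℝ (Module.End ℝ F)} (hg : Hyp g) (e : Module.End ℝ F)
    (he : Adj g e e) (he0 : e ≠ 0) (hee : e * e = e)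
    (hsym : ∀ P, Adj g P P → ∃ l : ℝ, e * P * e = l • e)
    (hmin : ∀ A A', Adj g A A' → ∃ l : ℝ, 0 ≤ l ∧ e * A' * A * e = l • e ∧ (A * e ≠ 0 → 0 < l))
    (htr : ∀ y : F, y ≠ 0 → ∀ z : F, ∃ A A', Adj g A A' ∧ A y = z)
    (hinf : ∀ y : F, y ≠ 0 → ∀ D : Submodule ℝ F, FiniteDimensional ℝ D → ∃ A ∈ g, A y ∉ D) :
    ∀ x : F, x ≠ 0 → ∀ w : F, ∃ (t : ℝ), ∃ A ∈ g, w = t • x + A x := by
  obtain ⟨x0, hx0, hex0⟩ : ∃ x0 : F, x0 ≠ 0 ∧ e x0 = x0 := by
    obtain ⟨v, hv⟩ : ∃ v, e v ≠ 0 := by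
      by_contra h
      push Not at h
      exact he0 (LinearMap.ext h)
    exact ⟨e v, hv, by rw [← Module.End.mul_apply, hee]⟩
  have core : ∀ w : F, ∃ (t : ℝ), ∃ A ∈ g, w = t • x0 + A x0 := by
    intro w
    obtain ⟨a, a', ha, haw⟩ := htr x0 hx0 w
    obtain ⟨R1, K1, f1, q1, s1⟩ := adj_supp hg he
    obtain ⟨R2, K2, f2, q2, s2⟩ := adj_supp hg ha
    have q3 : FiniteDimensional ℝ (F ⧸ (K1 ⊓ K2)) := by
      have : LinearMap.ker ((K1.mkQ).prod K2.mkQ) = K1 ⊓ K2 := by
        rw [LinearMap.ker_prod, Submodule.ker_mkQ, Submodule.ker_mkQ]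
      rw [← this]
      exact LinearEquiv.finiteDimensional (LinearMap.quotKerEquivRange _).symm
    obtain ⟨M, H, hRM, hHK, hMf, hMH⟩ := exists_MH (R1 ⊔ R2) (K1 ⊓ K2) inferInstance q3
    have eMH := s1 M H (le_sup_left.trans hRM) (hHK.trans inf_le_left)
    have aMH := s2 M H (le_sup_right.trans hRM) (hHK.trans inf_le_right)
    obtain ⟨Y, hY, y1, y2, y3, y4⟩ := exists_pure hg hMf hMH eMH hee hex0 (hinf x0 hx0)
    have ex := adjMH eMH
    have ax := adjMH aMH
    -- `Y h = e (Y h)` on `H`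
    have y5 : ∀ h ∈ H, Y h = e (Y h) := by
      intro h hh
      have := hg.fin Y hY
      obtain ⟨β, hβ⟩ := hg.good (M ⊔ LinearMap.range Y ⊔ Submodule.span ℝ {h}) inferInstance
      set M1 := M ⊔ LinearMap.range Y ⊔ Submodule.span ℝ {h} with hM1
      have hMM : M ≤ M1 := le_sup_left.trans le_sup_left
      have hYM : LinearMap.range Y ≤ M1 := le_sup_right.trans le_sup_left
      have hhM : h ∈ M1 := (le_sup_right : Submodule.span ℝ {h} ≤ M1)
        (Submodule.mem_span_singleton_self h)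
      have hu : Y h - e (Y h) ∈ M := M.sub_mem (y2 h hh) (ex.1 _)
      have hz : ∀ m ∈ M, β (Y h - e (Y h)) m = 0 := by
        intro m hm
        have e1 := hβ.skew Y hY hYM h hhM m (hMM hm)
        have e2 := hβ.skew Y hY hYM h hhM (e m) (hMM (ex.1 m))
        have e3 := adjMH_form eMH M1 hMM β hβ (Y h) (hMM (y2 h hh)) m (hMM hm)
        rw [map_sub, LinearMap.sub_apply, e3, e1, e2, ← y3 m hm, sub_self]
      by_contra hne
      have h1 := hβ.pos _ (hMM hu) (sub_ne_zero.2 hne)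
      rw [hz _ hu] at h1
      exact lt_irrefl _ h1
    -- the scalar
    obtain ⟨l, hl0, hl, hlpos⟩ := hmin Y (-Y) (Adj.base Y hY)
    have hl' : 0 < l := hlpos (fun h0 => y4 (by
      have := LinearMap.congr_fun h0 x0
      rwa [Module.End.mul_apply, hex0] at this))
    have y6 : ∀ m ∈ M, Y (Y m) = -(l • e m) := by
      intro m hm
      rw [y3 m hm, y5 _ (y1 _ (ex.1 m))]
      have := LinearMap.congr_fun hl m
      simp only [Module.End.mul_apply, LinearMap.neg_apply, map_neg, LinearMap.smul_apply] at this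
      rw [← this, neg_neg]
    have hx0M : x0 ∈ M := by rw [← hex0]; exact ex.1 _
    -- the elements `Z`
    have Z : ∀ b b' : Module.End ℝ F, Adj (gMH g M H) b b' → ∃ Z ∈ g,
        Z x0 = -(l • e (b x0)) + l • b' x0 := by
      intro b b' hb
      have bx := adjMH hb
      refine ⟨Y * (Y * b + b' * Y) - (Y * b + b' * Y) * Y, hg.br Y hY _ (pure_mul hg hb Y hY y1 y2),
        ?_⟩
      simp only [LinearMap.sub_apply, Module.End.mul_apply, LinearMap.add_apply, map_add]
      rw [y6 _ (bx.1 _), bx.2.2.2 _ (y1 _ hx0M), bx.2.2.1 _ (y1 _ hx0M), y6 _ hx0M, hex0, map_neg,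
        map_smul, map_zero]
      abel
    obtain ⟨Z1, hZ1, z1⟩ := Z a' a aMH.symm'
    obtain ⟨Z2, hZ2, z2⟩ := Z (e * a' * e) (e * a * e) (by
      have := Adj.mul (Adj.mul eMH aMH.symm') eMH
      rwa [← mul_assoc] at this)
    obtain ⟨s, hs⟩ := hsym (a + a') (by
      have := Adj.add ha ha.symm'
      rwa [add_comm a' a] at this)
    have hs' := LinearMap.congr_fun hs x0
    simp only [Module.End.mul_apply, LinearMap.add_apply, map_add, LinearMap.smul_apply, hex0] at hs'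
    simp only [Module.End.mul_apply, hex0] at z2
    have hee' : ∀ v, e (e v) = e v := fun v => by rw [← Module.End.mul_apply, hee]
    rw [hee'] at z2
    refine ⟨s / 2, (1 / l) • Z1 - (1 / (2 * l)) • Z2,
      g.sub_mem (g.smul_mem _ hZ1) (g.smul_mem _ hZ2), ?_⟩
    rw [LinearMap.sub_apply, LinearMap.smul_apply, LinearMap.smul_apply, z1, z2, haw]
    have hln : l ≠ 0 := hl'.ne'
    have e1 : (s / 2) • x0 = (1 / 2 : ℝ) • (e w + e (a' x0)) := by
      rw [← haw, hs', smul_smul]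
      congr 1
      ring
    rw [e1]
    have e2 : (1 / l) • (-(l • e (a' x0)) + l • w) = w - e (a' x0) := by
      rw [smul_add, smul_neg, smul_smul, smul_smul, one_div, inv_mul_cancel₀ hln, one_smul, one_smul]
      abel
    have e3 : (1 / (2 * l)) • (-(l • e (a' x0)) + l • e w) = (1 / 2 : ℝ) • (e w - e (a' x0)) := by
      rw [smul_add, smul_neg, smul_smul, smul_smul, smul_sub]
      have : 1 / (2 * l) * l = 1 / 2 := by field_simp
      rw [this]
      abel
    rw [e2, e3]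
    module
  intro x hx w
  obtain ⟨U, hU, hc, -⟩ := hg.tr x0 x hx0 hx
  obtain ⟨t, A, hA, hw⟩ := core (U.symm w)
  refine ⟨t, U.conj A, hc A hA, ?_⟩
  have h1 : U (U.symm w) = U (t • x0 + A x0) := by rw [hw]
  rw [LinearEquiv.apply_symm_apply, map_add, map_smul, hU] at h1
  rw [h1, LinearEquiv.conj_apply_apply, ← hU, LinearEquiv.symm_apply_apply]

end Pool.TH328.BM
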