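import Pool.Agent.TH328.BM.FinRank

/-!
# Conjugation by an isometry on the space of operators
-/

set_option autoImplicit false
set_option linter.unusedSectionVars false

namespace Pool.TH328.BM

open Filter Topology
open Pool.H590R3.Ab Pool.Agent.W687.Rot

variable {F : Type*} [NormedAddCommGroup F] [NormedSpace ℝ F] [CompleteSpace F]

theorem cj_eq (T : F ≃ₗᵢ[ℝ] F) (A : F →L[ℝ] F) : cj T A = op T * A * op T⁻¹ := rfl

theorem cj_norm_le (T : F ≃ₗᵢ[ℝ] F) (A : F →L[ℝ] F) : ‖cj T A‖ ≤ ‖A‖ := by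
  refine ContinuousLinearMap.opNorm_le_bound _ (norm_nonneg _) (fun x => ?_)
  rw [cj_apply, T.norm_map]
  refine (A.le_opNorm _).trans ?_
  rw [T.symm.norm_map]

theorem cj_cj (S T : F ≃ₗᵢ[ℝ] F) (A : F →L[ℝ] F) : cj S (cj T A) = cj (S * T) A := by
  ext x; rfl

theorem cj_one (A : F →L[ℝ] F) : cj 1 A = A := by
  ext x; rfl

/-- conjugation as an isometry of the space of operators -/
noncomputable def cV (T : F ≃ₗᵢ[ℝ] F) : (F →L[ℝ] F) ≃ₗᵢ[ℝ] (F →L[ℝ] F) where
  toFun A := cj T A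
  invFun A := cj T⁻¹ A
  map_add' A B := by
    ext x
    show T ((A + B) (T.symm x)) = T (A (T.symm x)) + T (B (T.symm x))
    rw [← map_add]; rfl
  map_smul' c A := by
    ext x
    show T ((c • A) (T.symm x)) = c • T (A (T.symm x))
    rw [← map_smul]; rfl
  left_inv A := by
    show cj T⁻¹ (cj T A) = A
    rw [cj_cj, inv_mul_cancel, cj_one]
  right_inv A := by
    show cj T (cj T⁻¹ A) = A
    rw [cj_cj, mul_inv_cancel, cj_one]
  norm_map' A := by
    apply le_antisymm (cj_norm_le T A)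
    show ‖A‖ ≤ ‖cj T A‖
    have h := cj_norm_le T⁻¹ (cj T A)
    rwa [cj_cj, inv_mul_cancel, cj_one] at h

theorem cV_apply (T : F ≃ₗᵢ[ℝ] F) (A : F →L[ℝ] F) : cV T A = cj T A := rfl

/-- the homomorphism `T ↦ cV T` -/
noncomputable def cVh : (F ≃ₗᵢ[ℝ] F) →* ((F →L[ℝ] F) ≃ₗᵢ[ℝ] (F →L[ℝ] F)) where
  toFun := cV
  map_one' := by ext A x; rfl
  map_mul' S T := by ext A x; rfl

theorem cV_zpow (T : F ≃ₗᵢ[ℝ] F) (n : ℤ) (A : F →L[ℝ] F) : (cV T ^ n) A = cj (T ^ n) A := by
  have h : cV T ^ n = cV (T ^ n) := (map_zpow cVh T n).symm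
  rw [h, cV_apply]

theorem cj_zpow (T : F ≃ₗᵢ[ℝ] F) (n : ℤ) (A : F →L[ℝ] F) :
    cj (T ^ n) A = op (T ^ n) * A * op (T ^ (-n)) := by
  rw [cj_eq, zpow_neg]

/-- the functional calculus of `cV T` as a sum -/
theorem Fop_cV (T : F ≃ₗᵢ[ℝ] F) {a : ℤ → ℝ} (ha : Summable fun k => |a k|) (A : F →L[ℝ] F) :
    HasSum (fun n : ℤ => a n • (op (T ^ n) * A * op (T ^ (-n)))) (Fop (cV T) a A) := by
  have h1 : HasSum (fun n : ℤ => a n • op (cV T ^ n)) (Fop (cV T) a) :=
    (summable_term (cV T) ha).hasSum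
  have h2 := h1.mapL (ContinuousLinearMap.apply ℝ (F →L[ℝ] F) A)
  refine h2.congr_fun (fun n => ?_)
  rw [← cj_zpow, ← cV_zpow]
  rfl

theorem Fop_mem_sh (T : F ≃ₗᵢ[ℝ] F) {a : ℤ → ℝ} (ha : Summable fun k => |a k|) {A : F →L[ℝ] F}
    (hA : SH A) : SH (Fop (cV T) a A) := by
  have h := Fop_cV T ha A
  refine isClosed_shS.mem_of_tendsto h (Eventually.of_forall (fun s => ?_))
  refine (shS F).sum_mem (fun n _ => ?_)
  refine (shS F).smul_mem _ ?_
  rw [← cj_zpow]
  exact hA.cj _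

theorem Fop_left (T : F ≃ₗᵢ[ℝ] F) {a : ℤ → ℝ} (ha : Summable fun k => |a k|) (A P : F →L[ℝ] F)
    (hP : ∀ n : ℤ, op (T ^ n) * P = P * op (T ^ n)) : Fop (cV T) a (P * A) = P * Fop (cV T) a A := by
  have h1 := Fop_cV T ha (P * A)
  have h2 := (Fop_cV T ha A).mul_left P
  refine h1.unique (h2.congr_fun (fun n => ?_))
  rw [mul_smul_comm, ← mul_assoc (op (T ^ n)), hP, mul_assoc, mul_assoc, mul_assoc]

theorem Fop_right (T : F ≃ₗᵢ[ℝ] F) {a : ℤ → ℝ} (ha : Summable fun k => |a k|) (A P : F →L[ℝ] F)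
    (hP : ∀ n : ℤ, op (T ^ n) * P = P * op (T ^ n)) : Fop (cV T) a (A * P) = Fop (cV T) a A * P := by
  have h1 := Fop_cV T ha (A * P)
  have h2 := (Fop_cV T ha A).mul_right P
  refine h1.unique (h2.congr_fun (fun n => ?_))
  rw [smul_mul_assoc, mul_assoc (op (T ^ n)), mul_assoc A P, ← hP (-n), ← mul_assoc A, ← mul_assoc,
    ← mul_assoc]

theorem comm_pow (T : F ≃ₗᵢ[ℝ] F) {a : ℤ → ℝ} (ha : Summable fun k => |a k|) (n : ℤ) :
    op (T ^ n) * Fop T a = Fop T a * op (T ^ n) := by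
  refine Fop_comm_of T ha _ (fun k => ?_)
  rw [← op_mul, ← op_mul, ← zpow_add, ← zpow_add, add_comm]

theorem cos_aux (d θ φ : ℝ) (hθ : |Real.cos θ - 1| < d / 8) (hφ : |Real.cos φ - 1| < d / 8) :
    |Real.cos (θ - φ) - 1| ≤ d / 2 := by
  have h1 := Real.sin_sq_add_cos_sq θ
  have h2 := Real.sin_sq_add_cos_sq φ
  have c1 := Real.cos_le_one θ
  have c2 := Real.cos_le_one φ
  have c3 := Real.cos_le_one (θ - φ)
  rw [abs_of_nonpos (by linarith)] at hθ hφ ⊢
  rw [Real.cos_sub]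
  nlinarith [sq_nonneg (Real.sin θ - Real.sin φ), sq_nonneg (Real.sin θ + Real.sin φ),
    mul_nonneg (sub_nonneg.2 c1) (sub_nonneg.2 c2)]

/-- **The two variable identity.** -/
theorem Fop_zero (T : F ≃ₗᵢ[ℝ] F) (A : F →L[ℝ] F) {d : ℝ} (hd : 0 < d) :
    Fop (cV T) (cg (fun u => 1 - bd d u)) (Ps T (bd (d / 8)) * A * Ps T (bd (d / 8))) = 0 := by
  set h : ℤ → ℝ := cg (fun u => 1 - bd d u) with hh
  set g : ℤ → ℝ := cg (bd (d / 8)) with hg
  have hcd : ContDiff ℝ 2 (fun u => 1 - bd d u) := contDiff_const.sub (bd_contDiff d)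
  have gcd' : ContDiff ℝ 2 (bd (d / 8)) := bd_contDiff _
  have hs : Summable (fun k : ℤ => |h k|) := sm hcd
  have gs : Summable (fun k : ℤ => |g k|) := sm gcd'
  have key : ∀ p q : ℤ, ∑' n : ℤ, h n * (g (p - n) * g (q + n)) = 0 := by
    refine Pool.Agent.TH367.BM.two_var h g hs gs (cg_neg _) (cg_neg _)
      (fun θ => 1 - bd d (Real.cos θ)) (fun θ => bd (d / 8) (Real.cos θ)) ?_ ?_ ?_
    · exact series (fun θ => 1 - bd d (Real.cos θ)) (cont_cos hcd)
        (fun θ => by simp only [Real.cos_neg]) (fun θ => by simp only [Real.cos_add_two_pi]) hs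
    · exact series (fun θ => bd (d / 8) (Real.cos θ)) (cont_cos gcd')
        (fun θ => by simp only [Real.cos_neg]) (fun θ => by simp only [Real.cos_add_two_pi]) gs
    · intro θ φ
      by_cases h1 : |Real.cos θ - 1| < d / 8
      · by_cases h2 : |Real.cos φ - 1| < d / 8
        · rw [bd_one hd (cos_aux d θ φ h1 h2), sub_self, zero_mul]
        · rw [bd_zero (u := Real.cos φ) (by positivity) (not_lt.1 h2), mul_zero, mul_zero]
      · rw [bd_zero (u := Real.cos θ) (by positivity) (not_lt.1 h1), zero_mul, mul_zero]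
  -- the triple family
  set G : F →L[ℝ] F := Ps T (bd (d / 8)) with hG
  set f : ℤ → ℤ × ℤ → (F →L[ℝ] F) := fun n r =>
    (h n * (g (r.1 - n) * g (r.2 + n))) • (op (T ^ r.1) * A * op (T ^ r.2)) with hf
  have hterm : ∀ r : ℤ × ℤ, ‖op (T ^ r.1) * A * op (T ^ r.2)‖ ≤ ‖A‖ := by
    intro r
    refine (norm_mul_le _ _).trans ?_
    refine (mul_le_mul_of_nonneg_right (norm_mul_le _ _) (norm_nonneg _)).trans ?_
    have a1 := op_norm_le (T ^ r.1)
    have a2 := op_norm_le (T ^ r.2)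
    calc ‖op (T ^ r.1)‖ * ‖A‖ * ‖op (T ^ r.2)‖ ≤ 1 * ‖A‖ * 1 := by gcongr
      _ = ‖A‖ := by ring
  have hsum : Summable (Function.uncurry f) := by
    have s1 : Summable (fun x : ℤ × ℤ => |g x.1| * |g x.2|) :=
      gs.mul_of_nonneg gs (fun _ => abs_nonneg _) (fun _ => abs_nonneg _)
    have s2 : Summable (fun x : ℤ × (ℤ × ℤ) => |h x.1| * (|g x.2.1| * |g x.2.2|)) :=
      hs.mul_of_nonneg s1 (fun _ => abs_nonneg _) (fun _ => by positivity)
    let e : ℤ × (ℤ × ℤ) ≃ ℤ × (ℤ × ℤ) :=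
      { toFun := fun x => (x.1, (x.2.1 - x.1, x.2.2 + x.1))
        invFun := fun x => (x.1, (x.2.1 + x.1, x.2.2 - x.1))
        left_inv := fun x => by ext <;> simp
        right_inv := fun x => by ext <;> simp }
    have s3 := e.summable_iff.2 s2
    refine Summable.of_norm_bounded (s3.mul_right ‖A‖) (fun x => ?_)
    show ‖(h x.1 * (g (x.2.1 - x.1) * g (x.2.2 + x.1))) • (op (T ^ x.2.1) * A * op (T ^ x.2.2))‖ ≤
      (|h x.1| * (|g (x.2.1 - x.1)| * |g (x.2.2 + x.1)|)) * ‖A‖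
    rw [norm_smul, norm_mul, norm_mul, Real.norm_eq_abs, Real.norm_eq_abs, Real.norm_eq_abs]
    exact mul_le_mul_of_nonneg_left (hterm _) (by positivity)
  -- inner sums
  have inner : ∀ n : ℤ, h n • (op (T ^ n) * (G * A * G) * op (T ^ (-n))) = ∑' r : ℤ × ℤ, f n r := by
    intro n
    have e1 : op (T ^ n) * G = Fop T (fun k => g (k - n)) := op_mul_Fop T gs n
    have e2 : G * op (T ^ (-n)) = Fop T (fun k => g (k + n)) := by
      rw [hG]
      show Fop T g * _ = _
      rw [← comm_pow T gs (-n), op_mul_Fop T gs (-n)]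
      congr 1
      funext k
      rw [sub_neg_eq_add]
    have g1 : Summable (fun k : ℤ => |g (k - n)|) := by
      simpa [sub_eq_add_neg] using summable_shift gs (-n)
    have g2 : Summable (fun k : ℤ => |g (k + n)|) := summable_shift gs n
    have e3 : op (T ^ n) * (G * A * G) * op (T ^ (-n)) =
        (∑' k : ℤ, (g (k - n) • op (T ^ k)) * A) * ∑' k : ℤ, g (k + n) • op (T ^ k) := by
      have : op (T ^ n) * (G * A * G) * op (T ^ (-n)) =
          (op (T ^ n) * G) * A * (G * op (T ^ (-n))) := by simp only [mul_assoc]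
      rw [this, e1, e2, (summable_term T g1).tsum_mul_right]
      rfl
    have n1 : Summable (fun k : ℤ => ‖(g (k - n) • op (T ^ k)) * A‖) := by
      refine Summable.of_nonneg_of_le (fun _ => norm_nonneg _) (fun k => ?_)
        ((summable_term_norm T g1).mul_right ‖A‖)
      exact norm_mul_le _ _
    have n2 := summable_term_norm T g2
    rw [e3, tsum_mul_tsum_of_summable_norm n1 n2,
      ← (summable_mul_of_summable_norm n1 n2).tsum_const_smul]
    refine tsum_congr (fun r => ?_)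
    simp only [hf]
    rw [smul_mul_assoc, smul_mul_smul_comm, smul_smul]
  have h1 := (Fop_cV T hs (G * A * G)).tsum_eq
  rw [← h1, tsum_congr inner, ← hsum.tsum_comm]
  refine (tsum_congr (fun r => ?_)).trans tsum_zero
  obtain ⟨p, q⟩ := r
  show ∑' n : ℤ, (h n * (g (p - n) * g (q + n))) • (op (T ^ p) * A * op (T ^ q)) = 0
  have hsm : Summable (fun n : ℤ => h n * (g (p - n) * g (q + n))) := by
    obtain ⟨C, hC⟩ : ∃ C : ℝ, ∀ k, |g k| ≤ C :=
      ⟨∑' k, |g k|, fun k => gs.le_tsum k (fun _ _ => abs_nonneg _)⟩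
    have hC0 : 0 ≤ C := (abs_nonneg _).trans (hC 0)
    refine Summable.of_norm_bounded (hs.mul_right (C * C)) (fun n => ?_)
    rw [norm_mul, norm_mul, Real.norm_eq_abs, Real.norm_eq_abs, Real.norm_eq_abs]
    exact mul_le_mul_of_nonneg_left (mul_le_mul (hC _) (hC _) (abs_nonneg _) hC0) (abs_nonneg _)
  rw [hsm.tsum_smul_const, key p q, zero_smul]

/-- **Finite rank.** -/
theorem finite_of (T : F ≃ₗᵢ[ℝ] F) (hK : IsCompactOperator (fun x => T x - x)) (A : F →L[ℝ] F)
    {d : ℝ} (hd : 0 < d) :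
    FiniteDimensional ℝ (LinearMap.range
      ((A - Ps (cV T) (bd d) A : F →L[ℝ] F) : F →ₗ[ℝ] F)) := by
  have hcd : ContDiff ℝ 2 (fun u => 1 - bd d u) := contDiff_const.sub (bd_contDiff d)
  have hs : Summable (fun k : ℤ => |cg (fun u => 1 - bd d u) k|) := sm hcd
  set W := Fop (cV T) (cg (fun u => 1 - bd d u)) with hW
  have e0 : A - Ps (cV T) (bd d) A = W A := by
    have h1 : W = 1 - Ps (cV T) (bd d) := by
      rw [hW, ← Ps_one (cV T), Ps_sub (cV T) contDiff_const (bd_contDiff d)]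
      rfl
    rw [h1]
    rfl
  set G : F →L[ℝ] F := Ps T (bd (d / 8)) with hG
  set P : F →L[ℝ] F := Pi' T (d / 8) with hP
  have hPG : G + P = 1 := by
    rw [hP]
    unfold Pi'
    rw [← hG]
    abel
  have gs : Summable (fun k : ℤ => |cg (bd (d / 8)) k|) := sm (bd_contDiff _)
  have hGc : ∀ n : ℤ, op (T ^ n) * G = G * op (T ^ n) := fun n => comm_pow T gs n
  have hPc : ∀ n : ℤ, op (T ^ n) * P = P * op (T ^ n) := by
    intro n
    have : P = 1 - G := by rw [← hPG]; abel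
    rw [this, mul_sub, sub_mul, mul_one, one_mul, hGc]
  have hA : A = G * A * G + P * A + (G * A) * P := by
    have h1 : A = (G + P) * A * (G + P) := by rw [hPG, one_mul, mul_one]
    have h2 : (G + P) * A * (G + P) = G * A * G + P * A * (G + P) + (G * A) * P := by
      noncomm_ring
    rw [hPG, mul_one] at h2
    calc A = (G + P) * A * (G + P) := h1
      _ = _ := by rw [hPG, mul_one, h2, mul_one]
  have e1 : W A = P * W A + W (G * A) * P := by
    have h1 : W A = W (G * A * G) + W (P * A) + W ((G * A) * P) := by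
      rw [← map_add, ← map_add, ← hA]
    rw [Fop_zero T A hd, zero_add, Fop_left T hs A P hPc, Fop_right T hs (G * A) P hPc] at h1
    exact h1
  rw [e0, e1]
  have f1 : FiniteDimensional ℝ (LinearMap.range (P : F →ₗ[ℝ] F)) := Pi_finite T hK (by positivity)
  have h2 : LinearMap.range ((P * W A + W (G * A) * P : F →L[ℝ] F) : F →ₗ[ℝ] F) ≤
      LinearMap.range (P : F →ₗ[ℝ] F) ⊔
        (LinearMap.range (P : F →ₗ[ℝ] F)).map (W (G * A) : F →ₗ[ℝ] F) := by
    rintro _ ⟨v, rfl⟩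
    exact Submodule.add_mem_sup (LinearMap.mem_range_self _ _)
      (Submodule.mem_map_of_mem (LinearMap.mem_range_self _ _))
  exact Submodule.finiteDimensional_of_le h2

end Pool.TH328.BM
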