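import Pool.Agent.TH328.BM.Conj

/-!
# A nonzero skew-Hermitian operator of finite rank
-/

set_option autoImplicit false
set_option linter.unusedSectionVars false

namespace Pool.TH328.BM

open Filter Topology
open Pool.H590R3.Ab Pool.Agent.W687.Rot

variable {F : Type*} [NormedAddCommGroup F] [NormedSpace ℝ F]

/-- the span of the conjugates of `X` applied to `w` -/
def Orb (X : F →L[ℝ] F) (w : F) : Submodule ℝ F :=
  Submodule.span ℝ (Set.range (fun U : F ≃ₗᵢ[ℝ] F => cj U X w))

theorem Orb_map (X : F →L[ℝ] F) (S : F ≃ₗᵢ[ℝ] F) (w : F) :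
    Orb X (S w) = (Orb X w).map (S.toLinearEquiv : F →ₗ[ℝ] F) := by
  unfold Orb
  rw [Submodule.map_span]
  congr 1
  ext v
  constructor
  · rintro ⟨U, rfl⟩
    refine ⟨cj (S⁻¹ * U) X w, ⟨S⁻¹ * U, rfl⟩, ?_⟩
    show S (S⁻¹ (U (X (U.symm (S w))))) = U (X (U.symm (S w)))
    exact S.apply_symm_apply _
  · rintro ⟨_, ⟨U, rfl⟩, rfl⟩
    refine ⟨S * U, ?_⟩
    show S (U (X (U.symm (S.symm (S w))))) = S (U (X (U.symm w)))
    rw [S.symm_apply_apply]

theorem Orb_smul (X : F →L[ℝ] F) {c : ℝ} (hc : c ≠ 0) (w : F) : Orb X (c • w) = Orb X w := by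
  have h : ∀ (c : ℝ) (w : F), Orb X (c • w) ≤ Orb X w := by
    intro c w
    refine Submodule.span_le.2 ?_
    rintro _ ⟨U, rfl⟩
    show cj U X (c • w) ∈ Orb X w
    rw [map_smul]
    exact Submodule.smul_mem _ _ (Submodule.subset_span ⟨U, rfl⟩)
  refine le_antisymm (h c w) ?_
  have h2 := h c⁻¹ (c • w)
  rwa [smul_smul, inv_mul_cancel₀ hc, one_smul] at h2

theorem Orb_eq (htr : Trans F) (X : F →L[ℝ] F) {m w : F} (hm : m ≠ 0) (hw : w ≠ 0)
    (hf : FiniteDimensional ℝ (Orb X m)) :
    FiniteDimensional ℝ (Orb X w) ∧ Module.finrank ℝ (Orb X w) = Module.finrank ℝ (Orb X m) := by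
  have hm' : 0 < ‖m‖ := norm_pos_iff.2 hm
  have hw' : 0 < ‖w‖ := norm_pos_iff.2 hw
  obtain ⟨S, hS⟩ := htr (‖m‖⁻¹ • m) (‖w‖⁻¹ • w)
    (by rw [norm_smul, norm_inv, norm_norm, inv_mul_cancel₀ hm'.ne'])
    (by rw [norm_smul, norm_inv, norm_norm, inv_mul_cancel₀ hw'.ne'])
  have h1 : Orb X w = (Orb X m).map (S.toLinearEquiv : F →ₗ[ℝ] F) := by
    rw [← Orb_smul X (inv_ne_zero hw'.ne') w, ← hS, Orb_map, Orb_smul X (inv_ne_zero hm'.ne')]
  rw [h1]
  exact ⟨inferInstance, LinearEquiv.finrank_map_eq _ _⟩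

/-- if the orbits are finite-dimensional and `X` kills a vector then `X` has finite rank -/
theorem finite_of_orb (htr : Trans F) (X : F →L[ℝ] F) {m : F} (hm : m ≠ 0)
    (hf : FiniteDimensional ℝ (Orb X m)) {z : F} (hz : z ≠ 0) (hXz : X z = 0) :
    FiniteDimensional ℝ (LinearMap.range (X : F →ₗ[ℝ] F)) := by
  classical
  have hfz := (Orb_eq htr X hm hz hf).1
  refine Submodule.finiteDimensional_of_le (S₂ := Orb X z) ?_
  rintro _ ⟨w, rfl⟩
  by_contra hw
  change X w ∉ Orb X z at hw
  -- a basis of the orbit of `z`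
  obtain ⟨κ, a, -, hspan, hli⟩ :=
    exists_linearIndependent' ℝ (fun U : F ≃ₗᵢ[ℝ] F => cj U X z)
  have hκ : Finite κ := by
    have h1 : FiniteDimensional ℝ (Submodule.span ℝ
        (Set.range ((fun U : F ≃ₗᵢ[ℝ] F => cj U X z) ∘ a))) := by
      rw [hspan]; exact hfz
    have h2 := (linearIndependent_span hli)
    exact h2.finite
  have := Fintype.ofFinite κ
  have hcard : Module.finrank ℝ (Orb X z) = Fintype.card κ := by
    have := finrank_span_eq_card hli
    rw [hspan] at this
    exact this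
  -- the larger family
  set fam : F → Option κ → F := fun v o => Option.casesOn' o (X w) (fun k => cj (a k) X v) with hfam
  have hli0 : LinearIndependent ℝ (fam z) := by
    have h1 := linearIndependent_option' (K := ℝ) (v := fun k => cj (a k) X z) (x := X w)
    refine h1.2 ⟨hli, ?_⟩
    have h2 : Submodule.span ℝ (Set.range (fun k => cj (a k) X z)) = Orb X z := hspan
    rw [h2]
    exact hw
  have hcont : Continuous fam := by
    refine continuous_pi (fun o => ?_)
    cases o with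
    | none => exact continuous_const
    | some k => exact (cj (a k) X).continuous
  have hopen : IsOpen {f : Option κ → F | LinearIndependent ℝ f} := isOpen_setOf_linearIndependent
  have h3 : ∀ᶠ v in 𝓝 z, LinearIndependent ℝ (fam v) :=
    hcont.continuousAt.eventually (hopen.mem_nhds hli0)
  have h4 : Tendsto (fun t : ℝ => z + t • w) (𝓝[≠] 0) (𝓝 z) := by
    have : Continuous (fun t : ℝ => z + t • w) := by fun_prop
    have h5 := this.tendsto 0
    simp only [zero_smul, add_zero] at h5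
    exact h5.mono_left nhdsWithin_le_nhds
  have h6 : ∀ᶠ v in 𝓝 z, v ≠ 0 := isOpen_ne.mem_nhds hz
  obtain ⟨t, ⟨ht1, ht2⟩, ht0⟩ := ((h4.eventually (h3.and h6)).and self_mem_nhdsWithin).exists
  have ht0' : t ≠ 0 := ht0
  set v := z + t • w with hv
  obtain ⟨g1, g2⟩ := Orb_eq htr X hm ht2 hf
  have g3 := (Orb_eq htr X hm hz hf).2
  have hmem : ∀ o, fam v o ∈ Orb X v := by
    intro o
    cases o with
    | none =>
      show X w ∈ Orb X v
      have h7 : X w = t⁻¹ • cj 1 X v := by
        show X w = t⁻¹ • X v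
        rw [hv, map_add, hXz, zero_add, map_smul, smul_smul, inv_mul_cancel₀ ht0', one_smul]
      rw [h7]
      exact Submodule.smul_mem _ _ (Submodule.subset_span ⟨1, rfl⟩)
    | some k => exact Submodule.subset_span ⟨a k, rfl⟩
  have h8 := finrank_span_eq_card ht1
  have h9 : Submodule.span ℝ (Set.range (fam v)) ≤ Orb X v :=
    Submodule.span_le.2 (by rintro _ ⟨o, rfl⟩; exact hmem o)
  have h10 := Submodule.finrank_mono h9
  rw [h8, g2, ← g3, hcard, Fintype.card_option] at h10
  omega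

variable [CompleteSpace F]

/-- **Existence of a finite rank skew-Hermitian operator.** -/
theorem exists_finite_rank (htr : Trans F) (T : F ≃ₗᵢ[ℝ] F) (hT : ∃ x, T x ≠ x)
    (hK : IsCompactOperator (fun x => T x - x)) (X : F →L[ℝ] F) (hX : SH X) (hX0 : X ≠ 0)
    (z : F) (hz : z ≠ 0) (hXz : X z = 0) :
    ∃ Z : F →L[ℝ] F, SH Z ∧ Z ≠ 0 ∧ FiniteDimensional ℝ (LinearMap.range (Z : F →ₗ[ℝ] F)) := by
  by_cases hcase : ∀ U : F ≃ₗᵢ[ℝ] F, cV T (cj U X) = cj U X
  · -- all conjugates commute with `T`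
    obtain ⟨x, hx⟩ := hT
    obtain ⟨d, hd, hd1, hdx⟩ := exists_d T x hx
    set P := Pi' T d with hP
    have hPx : P x ≠ 0 := by
      intro h
      apply hdx
      have h1 : P x = x - Ps T (bd d) x := rfl
      rw [h1, sub_eq_zero] at h
      exact h.symm
    have hcomm : ∀ (U : F ≃ₗᵢ[ℝ] F), cj U X * P = P * cj U X := by
      intro U
      have h1 : cj U X * op T = op T * cj U X := by
        have h2 := hcase U
        rw [cV_apply, cj_eq T] at h2
        calc cj U X * op T = (op T * cj U X * op T⁻¹) * op T := by rw [h2]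
          _ = op T * cj U X * (op T⁻¹ * op T) := by rw [mul_assoc]
          _ = op T * cj U X := by rw [← op_mul, inv_mul_cancel, op_one, mul_one]
      have h1' : cj U X * op T⁻¹ = op T⁻¹ * cj U X := by
        calc cj U X * op T⁻¹ = op T⁻¹ * (op T * cj U X) * op T⁻¹ := by
              rw [← mul_assoc, ← op_mul, inv_mul_cancel, op_one, one_mul]
          _ = op T⁻¹ * (cj U X * op T) * op T⁻¹ := by rw [h1]
          _ = op T⁻¹ * cj U X * (op T * op T⁻¹) := by simp only [mul_assoc]
          _ = op T⁻¹ * cj U X := by rw [← op_mul, mul_inv_cancel, op_one, mul_one]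
      have h3 : ∀ k : ℤ, cj U X * op (T ^ k) = op (T ^ k) * cj U X := by
        intro k
        induction k with
        | zero => rw [zpow_zero, op_one, mul_one, one_mul]
        | succ k ih => rw [zpow_add_one, op_mul, ← mul_assoc, ih, mul_assoc, h1, mul_assoc]
        | pred k ih => rw [zpow_sub_one, op_mul, ← mul_assoc, ih, mul_assoc, h1', mul_assoc]
      have h4 := Fop_comm_of T (sm (bd_contDiff d)) (cj U X) h3
      have h5 : P = 1 - Fop T (cg (bd d)) := rfl
      rw [h5, mul_sub, sub_mul, mul_one, one_mul, h4]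
    have hfin : FiniteDimensional ℝ (Orb X (P x)) := by
      have h1 : FiniteDimensional ℝ (LinearMap.range (P : F →ₗ[ℝ] F)) := Pi_finite T hK hd
      refine Submodule.finiteDimensional_of_le (S₂ := LinearMap.range (P : F →ₗ[ℝ] F)) ?_
      refine Submodule.span_le.2 ?_
      rintro _ ⟨U, rfl⟩
      have h2 := DFunLike.congr_fun (hcomm U) x
      exact ⟨cj U X x, h2.symm⟩
    exact ⟨X, hX, hX0, finite_of_orb htr X hPx hfin hz hXz⟩
  · push Not at hcase
    obtain ⟨U, hU⟩ := hcase
    obtain ⟨d, hd, hd1, hne⟩ := exists_d (cV T) (cj U X) hU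
    refine ⟨cj U X - Ps (cV T) (bd d) (cj U X), ?_, sub_ne_zero.2 (Ne.symm hne),
      finite_of T hK (cj U X) hd⟩
    exact (shS F).sub_mem (hX.cj U) (Fop_mem_sh T (sm (bd_contDiff d)) (hX.cj U))

end Pool.TH328.BM
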