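import Pool.Agent.TH328.BM.SHB
import Pool.Agent.W687.RotSpec
import Pool.Agent.TH367.BMTwoVar

/-!
# Finite rank skew-Hermitian operators from compact perturbations of the identity
-/

set_option autoImplicit false

namespace Pool.TH328.BM

open Filter Topology
open Pool.H590R3.Ab Pool.Agent.W687.Rot

/-! ### an isometry and a vector which is not fixed -/

section Fix

variable {Y : Type*} [NormedAddCommGroup Y] [NormedSpace ℝ Y] [CompleteSpace Y]

theorem fixed_of_Nn (V : Y ≃ₗᵢ[ℝ] Y) (y : Y) (h : Nn V y = 0) : V y = y := by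
  rw [Nn_apply, sub_eq_zero] at h
  have h1 : V y + V⁻¹ y = (2 : ℝ) • y := by
    have : Co V y = (1 / 2 : ℝ) • (V y + V⁻¹ y) := rfl
    rw [this] at h
    calc V y + V⁻¹ y = (2 : ℝ) • ((1 / 2 : ℝ) • (V y + V⁻¹ y)) := by
          rw [smul_smul]; norm_num
      _ = (2 : ℝ) • y := by rw [h]
  set w := V y - y with hw
  have hVw : V w = w := by
    have h2 : V (V y + V⁻¹ y) = V ((2 : ℝ) • y) := by rw [h1]
    rw [map_add, map_smul] at h2
    have h3 : V (V⁻¹ y) = y := V.apply_symm_apply y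
    rw [h3] at h2
    have h4 : V (V y) = (2 : ℝ) • V y - y := eq_sub_of_add_eq h2
    rw [hw, map_sub, h4, two_smul]
    abel
  have hp : ∀ n : ℕ, ‖y + (n : ℝ) • w‖ = ‖y‖ := by
    intro n
    induction n with
    | zero => simp
    | succ n ih =>
      rw [← ih, ← V.norm_map (y + (n : ℝ) • w), map_add, map_smul, hVw]
      congr 1
      have : V y = y + w := by rw [hw]; abel
      rw [this]
      push_cast
      module
  have hb : ∀ n : ℕ, (n : ℝ) * ‖w‖ ≤ 2 * ‖y‖ := by
    intro n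
    have h2 : (n : ℝ) • w = (y + (n : ℝ) • w) - y := by abel
    calc (n : ℝ) * ‖w‖ = ‖(n : ℝ) • w‖ := by
          rw [norm_smul, Real.norm_of_nonneg (Nat.cast_nonneg n)]
      _ ≤ ‖y + (n : ℝ) • w‖ + ‖y‖ := by
          conv_lhs => rw [h2]
          exact norm_sub_le _ _
      _ = 2 * ‖y‖ := by rw [hp]; ring
  by_contra hne
  have hw0 : 0 < ‖w‖ := norm_pos_iff.2 (sub_ne_zero.2 hne)
  obtain ⟨n, hn⟩ := exists_nat_gt (2 * ‖y‖ / ‖w‖)
  have := hb n
  rw [div_lt_iff₀ hw0] at hn
  linarith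

theorem exists_d (V : Y ≃ₗᵢ[ℝ] Y) (y : Y) (h : V y ≠ y) :
    ∃ d : ℝ, 0 < d ∧ d ≤ 1 ∧ Ps V (bd d) y ≠ y := by
  by_contra hcon
  push Not at hcon
  apply h
  apply fixed_of_Nn
  by_contra hN
  have hN0 : 0 < ‖Nn V y‖ := norm_pos_iff.2 hN
  obtain ⟨d0, hd0, hs⟩ := small (r := ‖Nn V y‖ / (2 * (‖y‖ + 1))) (by positivity)
  set d := min (d0 / 2) 1 with hd
  have hdpos : 0 < d := by rw [hd]; positivity
  have hd1 : d ≤ 1 := min_le_right _ _
  have hdd : d < d0 := (min_le_left _ _).trans_lt (by linarith)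
  have h1 := hs d hdpos hdd hd1 1
  have h2 := hcon d hdpos hd1
  have h3 : Nn V y = Ps V (fun u => (u - 1) * bd d u) y := by
    have := Co_Ps V (bd_contDiff d) 1
    have h4 := DFunLike.congr_fun this y
    rw [← h4]
    show Nn V y = Nn V (Ps V (bd d) y)
    rw [h2]
  have h5 : ContDiff ℝ 2 (fun u => (u - 1) * bd d u) :=
    (contDiff_id.sub contDiff_const).mul (bd_contDiff d)
  have h6 : ‖Nn V y‖ ≤ ‖Nn V y‖ / (2 * (‖y‖ + 1)) * ‖y‖ := by
    conv_lhs => rw [h3]
    refine ((Ps V _).le_opNorm y).trans ?_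
    refine mul_le_mul_of_nonneg_right ((Ps_norm V h5).trans ?_) (norm_nonneg _)
    exact h1
  have h7 : ‖Nn V y‖ / (2 * (‖y‖ + 1)) * ‖y‖ < ‖Nn V y‖ := by
    rw [div_mul_eq_mul_div, div_lt_iff₀ (by positivity)]
    nlinarith [norm_nonneg y]
  linarith

end Fix

/-! ### finite rank of the functional calculus -/

section Fin

variable {F : Type*} [NormedAddCommGroup F] [NormedSpace ℝ F] [CompleteSpace F]

/-- `1 - bd d` of the cosine of `T` -/
noncomputable def Pi' (T : F ≃ₗᵢ[ℝ] F) (d : ℝ) : F →L[ℝ] F := 1 - Ps T (bd d)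

theorem Pi_half (T : F ≃ₗᵢ[ℝ] F) {d : ℝ} (hd : 0 < d) : Pi' T (d / 2) * Pi' T d = Pi' T d := by
  have h1 : Ps T (bd (d / 2)) * Pi' T d = 0 := by
    unfold Pi'
    rw [← Ps_one T, Ps_sub T contDiff_const (bd_contDiff d),
      Ps_mul T (bd_contDiff _) (contDiff_const.sub (bd_contDiff d))]
    have h2 : Ps T (fun u => bd (d / 2) u * (1 - bd d u)) = Ps T (fun _ => (0 : ℝ)) := by
      refine Ps_congr T (fun u _ _ => ?_)
      by_cases h : |u - 1| ≤ d / 2
      · rw [bd_one hd h, sub_self, mul_zero]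
      · rw [bd_zero (half_pos hd) (not_le.1 h).le, zero_mul]
    rw [h2]
    have h3 := Ps_sub T (g := fun _ => (1 : ℝ)) (h := fun _ => (1 : ℝ)) contDiff_const contDiff_const
    rw [sub_self] at h3
    simp only [sub_self] at h3
    exact h3.symm
  have : Pi' T (d / 2) = 1 - Ps T (bd (d / 2)) := rfl
  rw [this, sub_mul, h1, one_mul, sub_zero]

theorem pow_compact (T : F ≃ₗᵢ[ℝ] F) (hK : IsCompactOperator (fun x => T x - x)) (k : ℤ) :
    IsCompactOperator (op (T ^ k) - 1 : F →L[ℝ] F) := by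
  have hK' : IsCompactOperator (op T - 1 : F →L[ℝ] F) := hK
  have h0 : IsCompactOperator ((0 : F →L[ℝ] F)) := isCompactOperator_zero
  induction k with
  | zero => rw [zpow_zero, op_one, sub_self]; exact h0
  | succ k ih =>
    have e : op (T ^ ((k : ℤ) + 1)) - 1 = op (T ^ (k : ℤ)) * (op T - 1) + (op (T ^ (k : ℤ)) - 1) := by
      rw [zpow_add_one, op_mul, mul_sub, mul_one]
      abel
    rw [e]
    exact (hK'.clm_comp (op (T ^ (k : ℤ)))).add ih
  | pred k ih =>
    have e : op (T ^ (-(k : ℤ) - 1)) - 1 =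
        (op (T ^ (-(k : ℤ))) - 1) - op (T ^ (-(k : ℤ) - 1)) * (op T - 1) := by
      have h1 : op (T ^ (-(k : ℤ))) = op (T ^ (-(k : ℤ) - 1)) * op T := by
        rw [← op_mul, ← zpow_add_one, sub_add_cancel]
      rw [h1, mul_sub, mul_one]
      abel
    rw [e]
    exact ih.sub (hK'.clm_comp (op (T ^ (-(k : ℤ) - 1))))

theorem Pi_compact (T : F ≃ₗᵢ[ℝ] F) (hK : IsCompactOperator (fun x => T x - x)) {d : ℝ}
    (hd : 0 < d) : IsCompactOperator (Pi' T d) := by
  set c : ℤ → ℝ := cg (fun u => 1 - bd d u) with hc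
  have hcd : ContDiff ℝ 2 (fun u => 1 - bd d u) := contDiff_const.sub (bd_contDiff d)
  have hcs : Summable (fun k : ℤ => |c k|) := sm hcd
  have hcs' : Summable c := hcs.of_abs
  have h1 : Pi' T d = Fop T c := by
    unfold Pi'
    rw [← Ps_one T, Ps_sub T contDiff_const (bd_contDiff d)]
    rfl
  have h2 : ∑' k, c k = 0 := by
    have h3 := series (fun θ => 1 - bd d (Real.cos θ)) (cont_cos hcd)
      (fun θ => by simp only [Real.cos_neg]) (fun θ => by simp only [Real.cos_add_two_pi]) hcs 0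
    simp only [mul_zero, Real.cos_zero, mul_one] at h3
    rw [bd_one hd (by rw [sub_self, abs_zero]; positivity), sub_self] at h3
    exact h3.tsum_eq
  have h3 : HasSum (fun k : ℤ => c k • (op (T ^ k) - 1 : F →L[ℝ] F)) (Fop T c) := by
    have a1 : HasSum (fun k : ℤ => c k • op (T ^ k)) (Fop T c) := (summable_term T hcs).hasSum
    have a2 : HasSum (fun k : ℤ => c k • (1 : F →L[ℝ] F)) ((0 : ℝ) • (1 : F →L[ℝ] F)) := by
      rw [← h2]
      exact hcs'.hasSum.smul_const _
    have a3 := a1.sub a2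
    rw [zero_smul, sub_zero] at a3
    refine a3.congr_fun ?_
    intro k
    rw [smul_sub]
  rw [h1]
  have hcl : IsClosed {f : F →L[ℝ] F | IsCompactOperator f} := isClosed_setOfPred_isCompactOperator
  refine hcl.mem_of_tendsto h3 (Eventually.of_forall (fun s => ?_))
  have hsum : ∀ s : Finset ℤ, IsCompactOperator
      (((∑ k ∈ s, c k • (op (T ^ k) - 1) : F →L[ℝ] F)) : F → F) := by
    intro s
    induction s using Finset.induction_on with
    | empty => rw [Finset.sum_empty]; exact isCompactOperator_zero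
    | insert a s ha ih =>
      rw [Finset.sum_insert ha]
      exact ((pow_compact T hK a).smul (c a)).add ih
  exact hsum s

theorem Pi_finite (T : F ≃ₗᵢ[ℝ] F) (hK : IsCompactOperator (fun x => T x - x)) {d : ℝ}
    (hd : 0 < d) : FiniteDimensional ℝ (LinearMap.range (Pi' T d : F →ₗ[ℝ] F)) := by
  set C := Pi' T (d / 2) with hC
  have hCc : IsCompactOperator C := Pi_compact T hK (half_pos hd)
  set N : Submodule ℝ F := LinearMap.ker ((C - 1 : F →L[ℝ] F) : F →ₗ[ℝ] F) with hN
  have hNc : IsClosed (N : Set F) := ContinuousLinearMap.isClosed_ker (C - 1 : F →L[ℝ] F)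
  have hNm : ∀ v ∈ N, C v = v := by
    intro v hv
    have : (C - 1 : F →L[ℝ] F) v = 0 := hv
    rw [_root_.sub_apply, one_apply_eq_self, sub_eq_zero] at this
    exact this
  have h1 := hCc.restrict (f := (C : F →ₗ[ℝ] F)) (V := N)
    (fun v hv => by
      show C v ∈ N
      rw [hNm v hv]; exact hv) hNc
  have h2 : FiniteDimensional ℝ N := by
    apply FiniteDimensional.of_isCompactOperator_id (𝕜 := ℝ)
    have h3 : (id : N → N) = ((C : F →ₗ[ℝ] F).restrict (fun v hv => by
      show C v ∈ N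
      rw [hNm v hv]; exact hv) : N →ₗ[ℝ] N) := by
      funext v
      apply Subtype.ext
      exact (hNm v v.2).symm
    rw [h3]
    exact h1
  refine Submodule.finiteDimensional_of_le (S₂ := N) ?_
  rintro _ ⟨v, rfl⟩
  show (C - 1 : F →L[ℝ] F) (Pi' T d v) = 0
  have := DFunLike.congr_fun (Pi_half T hd) v
  rw [_root_.sub_apply, one_apply_eq_self, sub_eq_zero]
  exact this

end Fin

end Pool.TH328.BM
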