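import Pool.Agent.TH328.BM.SHB

/-!
# The finite rank skew-Hermitian operators of a transitive space
-/

set_option autoImplicit false

namespace Pool.TH328.BM

open Filter Topology NormedSpace

/-- statement of BM-1 -/
def InvForm_stmt : Prop :=
  ∀ (M : Type) [NormedAddCommGroup M] [NormedSpace ℝ M] [FiniteDimensional ℝ M],
    ∃ β : M →ₗ[ℝ] M →ₗ[ℝ] ℝ, (∀ v w, β v w = β w v) ∧ (∀ v, v ≠ 0 → 0 < β v v) ∧
      ∀ U : M ≃ₗᵢ[ℝ] M, ∀ v w, β (U v) (U w) = β v w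

/-- the finite rank skew-Hermitian operators -/
def gF (F : Type*) [NormedAddCommGroup F] [NormedSpace ℝ F] : Submodule ℝ (Module.End ℝ F) where
  carrier := {A | (∃ B : F →L[ℝ] F, (B : F →ₗ[ℝ] F) = A ∧ SH B) ∧
    FiniteDimensional ℝ (LinearMap.range A)}
  add_mem' := by
    rintro _ _ ⟨⟨B, rfl, hB⟩, h1⟩ ⟨⟨C, rfl, hC⟩, h2⟩
    refine ⟨⟨B + C, rfl, hB.add hC⟩, ?_⟩
    have : LinearMap.range ((B : F →ₗ[ℝ] F) + (C : F →ₗ[ℝ] F)) ≤
        LinearMap.range (B : F →ₗ[ℝ] F) ⊔ LinearMap.range (C : F →ₗ[ℝ] F) := by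
      rintro _ ⟨v, rfl⟩
      exact Submodule.add_mem_sup (LinearMap.mem_range_self _ v) (LinearMap.mem_range_self _ v)
    exact Submodule.finiteDimensional_of_le this
  zero_mem' := by
    refine ⟨⟨0, rfl, sh_zero⟩, ?_⟩
    rw [LinearMap.range_zero]
    infer_instance
  smul_mem' := by
    rintro c _ ⟨⟨B, rfl, hB⟩, h1⟩
    refine ⟨⟨c • B, rfl, hB.smul c⟩, ?_⟩
    have : LinearMap.range (c • (B : F →ₗ[ℝ] F)) ≤ LinearMap.range (B : F →ₗ[ℝ] F) := by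
      rintro _ ⟨v, rfl⟩
      exact ⟨c • v, by simp⟩
    exact Submodule.finiteDimensional_of_le this

theorem skew_of_inv (M : Type) [NormedAddCommGroup M] [NormedSpace ℝ M] [FiniteDimensional ℝ M]
    (β0 : M →ₗ[ℝ] M →ₗ[ℝ] ℝ) (b3 : ∀ U : M ≃ₗᵢ[ℝ] M, ∀ v w, β0 (U v) (U w) = β0 v w)
    (C : M →L[ℝ] M) (hCS : SH C) (v w : M) : β0 (C v) w = - β0 v (C w) := by
  have hMc : CompleteSpace M := FiniteDimensional.complete ℝ M
  have hconst : ∀ t : ℝ, β0 (expI C hCS t v) (expI C hCS t w) = β0 v w := fun t => b3 _ _ _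
  -- differentiate
  let β1 : M →L[ℝ] M →L[ℝ] ℝ :=
    LinearMap.toContinuousLinearMap
      ((LinearMap.toContinuousLinearMap : (M →ₗ[ℝ] ℝ) ≃ₗ[ℝ] (M →L[ℝ] ℝ)).toLinearMap.comp β0)
  have hβ1 : ∀ a b, β1 a b = β0 a b := fun a b => rfl
  have d1 : ∀ u : M, HasDerivAt (fun t : ℝ => exp (t • C) u) (C u) 0 := by
    intro u
    have := (exp_deriv C 0).clm_apply (hasDerivAt_const (0 : ℝ) u)
    simpa using this
  have d3 : HasDerivAt (fun t : ℝ => β1 (exp (t • C) v) (exp (t • C) w))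
      (β1 (C v) w + β1 v (C w)) 0 := by
    have d4 := (β1.hasFDerivAt.comp_hasDerivAt (0 : ℝ) (d1 v)).clm_apply (d1 w)
    simpa using d4
  have d5 : (fun t : ℝ => β1 (exp (t • C) v) (exp (t • C) w)) = fun _ => β0 v w := by
    funext t
    exact hconst t
  rw [d5] at d3
  have d6 := d3.unique (hasDerivAt_const (0 : ℝ) _)
  rw [hβ1, hβ1] at d6
  linarith

section

variable {F : Type} [NormedAddCommGroup F] [NormedSpace ℝ F] [CompleteSpace F]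

omit [CompleteSpace F] in
theorem good_of (hI : InvForm_stmt) (M : Submodule ℝ F) (hM : FiniteDimensional ℝ M) :
    ∃ β : F →ₗ[ℝ] F →ₗ[ℝ] ℝ, Good (gF F) M β := by
  obtain ⟨β0, b1, b2, b3⟩ := hI M
  obtain ⟨P, hP⟩ := M.subtype.exists_leftInverse_of_injective (Submodule.ker_subtype M)
  have hPm : ∀ m : M, P (m : F) = m := fun m => LinearMap.congr_fun hP m
  have hPv : ∀ v (hv : v ∈ M), P v = ⟨v, hv⟩ := fun v hv => hPm ⟨v, hv⟩
  refine ⟨β0.compl₁₂ P P, ⟨?_, ?_, ?_⟩⟩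
  · intro v _ w _
    rw [LinearMap.compl₁₂_apply, LinearMap.compl₁₂_apply, b1]
  · intro v hv hv0
    rw [LinearMap.compl₁₂_apply, hPv v hv]
    exact b2 _ (fun h => hv0 (congrArg Subtype.val h))
  · rintro _ ⟨⟨B, rfl, hB⟩, -⟩ hr v hv w hw
    rw [LinearMap.compl₁₂_apply, LinearMap.compl₁₂_apply]
    have hBM : ∀ u, B u ∈ M := fun u => hr (LinearMap.mem_range_self (B : F →ₗ[ℝ] F) u)
    have e1 : P ((B : F →ₗ[ℝ] F) v) = ⟨B v, hBM v⟩ := hPv _ (hBM v)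
    have e2 : P ((B : F →ₗ[ℝ] F) w) = ⟨B w, hBM w⟩ := hPv _ (hBM w)
    rw [e1, e2, hPv v hv, hPv w hw]
    exact skew_of_inv M β0 b3 ((B.comp M.subtypeL).codRestrict M (fun u => hBM _))
      (fun x => hB (x : F)) ⟨v, hv⟩ ⟨w, hw⟩

theorem hyp_of (hI : InvForm_stmt) (htr : Trans F) (hinf : ¬ FiniteDimensional ℝ F)
    (Z : F →L[ℝ] F) (hZ : SH Z) (hZ0 : Z ≠ 0)
    (hZf : FiniteDimensional ℝ (LinearMap.range (Z : F →ₗ[ℝ] F))) : Hyp (gF F) where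
  br := by
    rintro _ ⟨⟨A, rfl, hA⟩, h1⟩ _ ⟨⟨B, rfl, hB⟩, h2⟩
    refine ⟨⟨A * B - B * A, rfl, hA.bracket hB⟩, ?_⟩
    have : LinearMap.range ((A : F →ₗ[ℝ] F) * (B : F →ₗ[ℝ] F) - (B : F →ₗ[ℝ] F) * (A : F →ₗ[ℝ] F)) ≤
        LinearMap.range (A : F →ₗ[ℝ] F) ⊔ LinearMap.range (B : F →ₗ[ℝ] F) := by
      rintro _ ⟨v, rfl⟩
      rw [LinearMap.sub_apply]
      exact Submodule.sub_mem _ ((le_sup_left : _ ≤ _ ⊔ LinearMap.range (B : F →ₗ[ℝ] F))
        (LinearMap.mem_range_self _ _)) ((le_sup_right : _ ≤ LinearMap.range (A : F →ₗ[ℝ] F) ⊔ _)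
        (LinearMap.mem_range_self _ _))
    exact Submodule.finiteDimensional_of_le this
  fin := fun A hA => hA.2
  good := fun M hM => good_of hI M hM
  tr := by
    intro x y hx hy
    have hx' : 0 < ‖x‖ := norm_pos_iff.2 hx
    have hy' : 0 < ‖y‖ := norm_pos_iff.2 hy
    obtain ⟨T, hT⟩ := htr (‖x‖⁻¹ • x) (‖y‖⁻¹ • y)
      (by rw [norm_smul, norm_inv, norm_norm, inv_mul_cancel₀ hx'.ne'])
      (by rw [norm_smul, norm_inv, norm_norm, inv_mul_cancel₀ hy'.ne'])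
    have hc : ‖y‖ * ‖x‖⁻¹ ≠ 0 := by positivity
    have conj_mem : ∀ (U : F ≃ₗᵢ[ℝ] F) (c : ℝ) (hc : c ≠ 0), ∀ A ∈ gF F,
        (U.toLinearEquiv.trans (LinearEquiv.smulOfNeZero ℝ F c hc)).conj A ∈ gF F := by
      rintro U c hc _ ⟨⟨A, rfl, hA⟩, h1⟩
      have e1 : (U.toLinearEquiv.trans (LinearEquiv.smulOfNeZero ℝ F c hc)).conj
          (A : F →ₗ[ℝ] F) = ((cj U A : F →L[ℝ] F) : F →ₗ[ℝ] F) := by
        ext v
        rw [LinearEquiv.conj_apply_apply]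
        show c • U (A (U.symm ((LinearEquiv.smulOfNeZero ℝ F c hc).symm v))) = U (A (U.symm v))
        have : (LinearEquiv.smulOfNeZero ℝ F c hc).symm v = c⁻¹ • v := by
          rw [LinearEquiv.symm_apply_eq]
          show v = c • (c⁻¹ • v)
          rw [smul_smul, mul_inv_cancel₀ hc, one_smul]
        rw [this, map_smul, map_smul, map_smul, smul_smul, mul_inv_cancel₀ hc, one_smul]
      rw [e1]
      refine ⟨⟨_, rfl, hA.cj U⟩, ?_⟩
      have : LinearMap.range ((cj U A : F →L[ℝ] F) : F →ₗ[ℝ] F) ≤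
          (LinearMap.range (A : F →ₗ[ℝ] F)).map (U.toLinearEquiv : F →ₗ[ℝ] F) := by
        rintro _ ⟨v, rfl⟩
        exact ⟨A (U.symm v), LinearMap.mem_range_self _ _, rfl⟩
      exact Submodule.finiteDimensional_of_le this
    refine ⟨T.toLinearEquiv.trans (LinearEquiv.smulOfNeZero ℝ F _ hc), ?_, conj_mem T _ hc, ?_⟩
    · show (‖y‖ * ‖x‖⁻¹) • T x = y
      rw [mul_smul, ← map_smul, hT, smul_smul, mul_inv_cancel₀ hy'.ne', one_smul]
    · intro A hA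
      have h1 := conj_mem T.symm (‖y‖ * ‖x‖⁻¹)⁻¹ (inv_ne_zero hc) A hA
      have h2 : (T.toLinearEquiv.trans (LinearEquiv.smulOfNeZero ℝ F _ hc)).symm =
          T.symm.toLinearEquiv.trans (LinearEquiv.smulOfNeZero ℝ F _ (inv_ne_zero hc)) := by
        refine LinearEquiv.ext (fun v => ?_)
        rw [LinearEquiv.symm_apply_eq]
        show v = (‖y‖ * ‖x‖⁻¹) • T ((‖y‖ * ‖x‖⁻¹)⁻¹ • T.symm v)
        rw [map_smul, smul_smul, mul_inv_cancel₀ hc, one_smul, T.apply_symm_apply]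
      rw [h2]
      exact h1
  ne := ⟨(Z : F →ₗ[ℝ] F), ⟨⟨Z, rfl, hZ⟩, hZf⟩, fun h => hZ0 (ContinuousLinearMap.coe_injective h)⟩
  inf := hinf

end

end Pool.TH328.BM
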