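import Pool.Agent.TH328.BM.Dich
import Pool.Agent.TH328.BM.HypOf
import Pool.Agent.TH328.BM.AlgC
import Pool.Agent.TH55.BM.InvForm
import Pool.Agent.TH367.BMNearOne
import Pool.Agent.TH412.BM3
import Pool.Agent.TH111.BMUltra
import Pool.Agent.TH511.BMSupp
import Pool.Agent.TH511.BMTrans
import Pool.Agent.TH511.BMForm
import Pool.Agent.TH645.BMFinalForm

/-!
# Transitive spaces with an isometry that is a compact perturbation of the identity
-/

set_option autoImplicit false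
set_option linter.unusedSectionVars false

namespace Pool.TH328.BM

open Filter Topology

theorem invForm : InvForm_stmt := fun M _ _ _ => Pool.Agent.TH55.BM.exists_inv_form M

/-- a transitive space with a nonzero skew-Hermitian operator of finite rank -/
theorem par_of_finite_rank (F : Type) [NormedAddCommGroup F] [NormedSpace ℝ F] [CompleteSpace F]
    (htr : Trans F) (hinf : ¬ FiniteDimensional ℝ F) (Z : F →L[ℝ] F) (hZ : SH Z) (hZ0 : Z ≠ 0)
    (hZf : FiniteDimensional ℝ (LinearMap.range (Z : F →ₗ[ℝ] F))) (x y : F) :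
    ‖x + y‖ * ‖x + y‖ + ‖x - y‖ * ‖x - y‖ = 2 * (‖x‖ * ‖x‖ + ‖y‖ * ‖y‖) := by
  have hg := hyp_of invForm htr hinf Z hZ hZ0 hZf
  obtain ⟨e, he, he0, hee, hsym, hmin⟩ := Pool.Agent.TH511.BM.exists_min_idem hg
  have h1 := Pool.Agent.TH511.BM.transitive_alg hg e he he0 hee hmin
  have h2 : ∀ y : F, y ≠ 0 → ∀ D : Submodule ℝ F, FiniteDimensional ℝ D → ∃ A ∈ gF F, A y ∉ D :=
    fun y hy D hD => Pool.Agent.TH511.BM.infinite_orbit hg h1 y hy D hD
  have h3 := tangent hg e he he0 hee hsym hmin h1 h2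
  obtain ⟨Q, q1, q2, q3, q4⟩ := Pool.Agent.TH511.BM.exists_form hg e he he0 hee hmin
    (fun A A' h => Pool.Agent.TH511.BM.adj_support hg h) h1
  refine Pool.Agent.TH645.BM.final_form F (gF F) Q hinf ?_ h3 q1 q2 q3 q4 x y
  rintro _ ⟨⟨B, rfl, hB⟩, -⟩ x
  exact hB x

/-- a finite-dimensional transitive space -/
theorem par_of_finite (E : Type) [NormedAddCommGroup E] [NormedSpace ℝ E]
    (hE : FiniteDimensional ℝ E) (htr : Trans E) (x y : E) :
    ‖x + y‖ * ‖x + y‖ + ‖x - y‖ * ‖x - y‖ = 2 * (‖x‖ * ‖x‖ + ‖y‖ * ‖y‖) := by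
  obtain ⟨β, b1, b2, b3⟩ := invForm E
  by_cases hex : ∃ u : E, ‖u‖ = 1
  · obtain ⟨u, hu⟩ := hex
    have h1 : ∀ v : E, β v v = β u u * (‖v‖ * ‖v‖) := by
      intro v
      by_cases hv : v = 0
      · simp [hv]
      have hv' : 0 < ‖v‖ := norm_pos_iff.2 hv
      obtain ⟨T, hT⟩ := htr u (‖v‖⁻¹ • v) hu
        (by rw [norm_smul, norm_inv, norm_norm, inv_mul_cancel₀ hv'.ne'])
      have h2 := b3 T u u
      rw [hT, map_smul, map_smul, LinearMap.smul_apply, smul_eq_mul, smul_eq_mul] at h2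
      rw [← h2]
      field_simp
    have hu0 : 0 < β u u := b2 u (fun h => by rw [h, norm_zero] at hu; exact zero_ne_one hu)
    have h2 : β (x + y) (x + y) + β (x - y) (x - y) = 2 * (β x x + β y y) := by
      simp only [map_add, map_sub, LinearMap.add_apply, LinearMap.sub_apply]
      ring
    rw [h1 (x + y), h1 (x - y), h1 x, h1 y] at h2
    have h3 : β u u * (‖x + y‖ * ‖x + y‖ + ‖x - y‖ * ‖x - y‖) =
        β u u * (2 * (‖x‖ * ‖x‖ + ‖y‖ * ‖y‖)) := by linarith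
    exact mul_left_cancel₀ hu0.ne' h3
  · have h0 : ∀ v : E, v = 0 := by
      intro v
      by_contra hv
      have hv' : 0 < ‖v‖ := norm_pos_iff.2 hv
      exact hex ⟨‖v‖⁻¹ • v, by rw [norm_smul, norm_inv, norm_norm, inv_mul_cancel₀ hv'.ne']⟩
    rw [h0 x, h0 y]
    simp

/-- **Main theorem**, infinite dimension. -/
theorem main_inf (E : Type) [NormedAddCommGroup E] [NormedSpace ℝ E] [CompleteSpace E]
    [TopologicalSpace.SeparableSpace E] (htr : Trans E) (hinf : ¬ FiniteDimensional ℝ E)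
    (T : E ≃ₗᵢ[ℝ] E) (hT : ∃ x, T x ≠ x) (hK : IsCompactOperator (fun x => T x - x)) (x y : E) :
    ‖x + y‖ * ‖x + y‖ + ‖x - y‖ * ‖x - y‖ = 2 * (‖x‖ * ‖x‖ + ‖y‖ * ‖y‖) := by
  -- isometries close to one
  have hseq : ∀ n : ℕ, ∃ R : E ≃ₗᵢ[ℝ] E, (∃ x, R x ≠ x) ∧ IsCompactOperator (fun x => R x - x) ∧
      ∀ x, ‖R x - x‖ ≤ (1 / ((n : ℝ) + 4)) * ‖x‖ := fun n =>
    Pool.TH412.BM3.exists_seq E htr hinf T hT hK (1 / ((n : ℝ) + 4)) (by positivity)
  choose R hR1 hR2 hR3 using hseq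
  set D : ℕ → E →L[ℝ] E := fun n => Pool.H590R3.Ab.op (R n) - 1 with hD
  have hDx : ∀ n x, D n x = R n x - x := fun n x => rfl
  have hDn : ∀ n, ‖D n‖ ≤ 1 / ((n : ℝ) + 4) := fun n =>
    ContinuousLinearMap.opNorm_le_bound _ (by positivity) (fun x => by rw [hDx]; exact hR3 n x)
  have hD0 : ∀ n, 0 < ‖D n‖ := by
    intro n
    rw [norm_pos_iff]
    intro h
    obtain ⟨x, hx⟩ := hR1 n
    have := DFunLike.congr_fun h x
    rw [hDx] at this
    exact hx (sub_eq_zero.1 this)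
  set X : ℕ → E →L[ℝ] E := fun n => ‖D n‖⁻¹ • D n with hX
  have hXn : ∀ n, ‖X n‖ = 1 := by
    intro n
    rw [hX]
    simp only
    rw [norm_smul, norm_inv, norm_norm, inv_mul_cancel₀ (hD0 n).ne']
  have hXc : ∀ n, IsCompactOperator (X n) := by
    intro n
    have h1 : IsCompactOperator (D n) := hR2 n
    exact h1.smul (‖D n‖⁻¹)
  have hε : Tendsto (fun n => ‖D n‖) atTop (𝓝 0) := by
    refine squeeze_zero (fun n => norm_nonneg _) hDn ?_
    have h1 : Tendsto (fun n : ℕ => (n : ℝ) + 4) atTop atTop :=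
      tendsto_atTop_add_const_right _ _ tendsto_natCast_atTop_atTop
    refine h1.inv_tendsto_atTop.congr (fun n => ?_)
    rw [Pi.inv_apply, one_div]
  have hXb : ∀ n (t : ℝ), |t| ≤ 1 / 4 → ∀ x, ‖x + t • X n x‖ ≤ (1 + 4 * t ^ 2 + 4 * ‖D n‖) * ‖x‖ := by
    intro n t ht x
    refine Pool.Agent.TH367.BM.near_one E (R n) ‖D n‖ (hD0 n) ?_ (X n) ?_ (hXn n).le t ht x
    · refine (hDn n).trans ?_
      rw [div_le_div_iff₀ (by positivity) (by norm_num)]
      have : (0 : ℝ) ≤ n := Nat.cast_nonneg n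
      linarith
    · intro x
      have h1 : ‖D n‖ • X n x = D n x := by
        show ‖D n‖ • (‖D n‖⁻¹ • D n) x = D n x
        show ‖D n‖ • (‖D n‖⁻¹ • (D n x)) = D n x
        rw [smul_smul, mul_inv_cancel₀ (hD0 n).ne', one_smul]
      rw [h1, hDx]
      abel
  obtain ⟨F, i1, i2, i3, j, hF1, hF2, T', hT'1, hT'2, X', hX'1, hX'2, z, hz, hXz⟩ :=
    Pool.Agent.TH111.BMUltra.ultra E htr hinf T hT hK X hXn hXc (fun n => ‖D n‖) hε hXb
  obtain ⟨Z, hZ1, hZ2, hZ3⟩ := exists_finite_rank hF1 T' hT'1 hT'2 X' hX'1 hX'2 z hz hXz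
  have := par_of_finite_rank F hF1 hF2 Z hZ1 hZ2 hZ3 (j x) (j y)
  rwa [← map_add, ← map_sub, j.norm_map, j.norm_map, j.norm_map, j.norm_map] at this

theorem exists_small_compact (E : Type) [NormedAddCommGroup E] [NormedSpace ℝ E] [CompleteSpace E]
    (hinf : ¬ FiniteDimensional ℝ E) (K : E →L[ℝ] E) (hK : IsCompactOperator K) (ε : ℝ)
    (hε : 0 < ε) : ∃ x : E, ‖x‖ = 1 ∧ ‖K x‖ < ε := by
  by_contra hcon
  push Not at hcon
  apply hinf
  have hb : ∀ x, ε * ‖x‖ ≤ ‖K x‖ := by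
    intro x
    by_cases hx : x = 0
    · simp [hx]
    have hx' : 0 < ‖x‖ := norm_pos_iff.2 hx
    have h1 := hcon (‖x‖⁻¹ • x) (by rw [norm_smul, norm_inv, norm_norm, inv_mul_cancel₀ hx'.ne'])
    rw [map_smul, norm_smul, norm_inv, norm_norm] at h1
    rw [← div_eq_inv_mul, le_div_iff₀ hx'] at h1
    exact h1
  have hanti : AntilipschitzWith ⟨ε⁻¹, by positivity⟩ K := by
    refine K.antilipschitz_of_bound (fun x => ?_)
    show ‖x‖ ≤ ε⁻¹ * ‖K x‖
    rw [← div_eq_inv_mul, le_div_iff₀ hε, mul_comm]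
    exact hb x
  have hcl : IsClosedEmbedding K := hanti.isClosedEmbedding K.uniformContinuous
  apply FiniteDimensional.of_isCompactOperator_id (𝕜 := ℝ)
  obtain ⟨C, hC, hCn⟩ := hK
  exact ⟨K ⁻¹' C, hcl.isCompact_preimage hC, hCn⟩

end Pool.TH328.BM
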