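import Pool.Agent.TH328.BM.Stm

/-!
# Skew-Hermitian operators on real Banach spaces
-/

set_option autoImplicit false

namespace Pool.TH328.BM

open Filter Topology Asymptotics

section Basic

variable {F : Type*} [NormedAddCommGroup F] [NormedSpace ℝ F]

/-- upper estimate -/
def Up (A : F →L[ℝ] F) : Prop :=
  ∀ x : F, ∀ ε : ℝ, 0 < ε → ∃ δ : ℝ, 0 < δ ∧ ∀ t : ℝ, |t| ≤ δ → ‖x + t • A x‖ ≤ ‖x‖ + ε * |t|

theorem Up.lower {A : F →L[ℝ] F} (hA : Up A) (x : F) (ε : ℝ) (hε : 0 < ε) :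
    ∃ δ : ℝ, 0 < δ ∧ ∀ t : ℝ, |t| ≤ δ → |‖x + t • A x‖ - ‖x‖| ≤ ε * |t| := by
  obtain ⟨δ, hδ, h⟩ := hA x ε hε
  refine ⟨δ, hδ, fun t ht => ?_⟩
  have h1 := h t ht
  have h2 := h (-t) (by rwa [abs_neg])
  rw [abs_neg] at h2
  have h3 : (2 : ℝ) * ‖x‖ ≤ ‖x + t • A x‖ + ‖x + (-t) • A x‖ := by
    have : (2 : ℝ) • x = (x + t • A x) + (x + (-t) • A x) := by module
    calc (2 : ℝ) * ‖x‖ = ‖(2 : ℝ) • x‖ := by rw [norm_smul]; norm_num
      _ ≤ _ := by rw [this]; exact norm_add_le _ _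
  rw [abs_le]
  constructor <;> linarith

theorem sh_iff_up {A : F →L[ℝ] F} : SH A ↔ Up A := by
  constructor
  · intro h x ε hε
    have h1 := (hasDerivAt_iff_isLittleO.1 (h x))
    rw [isLittleO_iff] at h1
    have h2 := h1 hε
    rw [Metric.eventually_nhds_iff] at h2
    obtain ⟨δ, hδ, h3⟩ := h2
    refine ⟨δ / 2, by positivity, fun t ht => ?_⟩
    have h4 := h3 (y := t) (by rw [Real.dist_eq, sub_zero]; linarith [abs_nonneg t])
    simp only [zero_smul, add_zero, sub_zero, smul_zero, Real.norm_eq_abs] at h4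
    linarith [le_abs_self (‖x + t • A x‖ - ‖x‖)]
  · intro h x
    rw [hasDerivAt_iff_isLittleO, isLittleO_iff]
    intro c hc
    obtain ⟨δ, hδ, h1⟩ := h.lower x c hc
    rw [Metric.eventually_nhds_iff]
    refine ⟨δ, hδ, fun t ht => ?_⟩
    rw [Real.dist_eq, sub_zero] at ht
    simp only [zero_smul, add_zero, sub_zero, smul_zero, Real.norm_eq_abs]
    exact h1 t ht.le

theorem SH.lower {A : F →L[ℝ] F} (hA : SH A) (x : F) (ε : ℝ) (hε : 0 < ε) :
    ∃ δ : ℝ, 0 < δ ∧ ∀ t : ℝ, |t| ≤ δ → |‖x + t • A x‖ - ‖x‖| ≤ ε * |t| :=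
  (sh_iff_up.1 hA).lower x ε hε

theorem sh_zero : SH (0 : F →L[ℝ] F) := by
  rw [sh_iff_up]
  intro x ε hε
  refine ⟨1, one_pos, fun t _ => ?_⟩
  rw [_root_.zero_apply, smul_zero, add_zero]
  have := abs_nonneg t
  nlinarith

theorem SH.add {A B : F →L[ℝ] F} (hA : SH A) (hB : SH B) : SH (A + B) := by
  rw [sh_iff_up] at *
  intro x ε hε
  obtain ⟨δ1, h1, k1⟩ := hA x (ε / 2) (by positivity)
  obtain ⟨δ2, h2, k2⟩ := hB x (ε / 2) (by positivity)
  refine ⟨min δ1 δ2 / 2, by positivity, fun t ht => ?_⟩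
  have m1 : |2 * t| ≤ δ1 := by
    rw [abs_mul, abs_of_pos (by norm_num : (0:ℝ) < 2)]
    linarith [min_le_left δ1 δ2]
  have m2 : |2 * t| ≤ δ2 := by
    rw [abs_mul, abs_of_pos (by norm_num : (0:ℝ) < 2)]
    linarith [min_le_right δ1 δ2]
  have a1 := k1 _ m1
  have a2 := k2 _ m2
  rw [abs_mul, abs_of_pos (by norm_num : (0:ℝ) < 2)] at a1 a2
  have e1 : x + t • (A + B) x = (1 / 2 : ℝ) • ((x + (2 * t) • A x) + (x + (2 * t) • B x)) := by
    rw [_root_.add_apply]; module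
  rw [e1, norm_smul, Real.norm_of_nonneg (by norm_num : (0:ℝ) ≤ 1 / 2)]
  have := norm_add_le (x + (2 * t) • A x) (x + (2 * t) • B x)
  linarith

theorem SH.smul {A : F →L[ℝ] F} (hA : SH A) (c : ℝ) : SH (c • A) := by
  by_cases hc : c = 0
  · rw [hc, zero_smul]; exact sh_zero
  rw [sh_iff_up] at *
  intro x ε hε
  have hc' : 0 < |c| := abs_pos.2 hc
  obtain ⟨δ, h, k⟩ := hA x (ε / |c|) (by positivity)
  refine ⟨δ / |c|, by positivity, fun t ht => ?_⟩
  have h1 := k (t * c) (by rw [abs_mul]; rwa [le_div_iff₀ hc'] at ht)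
  rw [_root_.smul_apply, smul_smul]
  refine h1.trans (le_of_eq ?_)
  rw [abs_mul]
  field_simp

theorem sh_of_approx {A : F →L[ℝ] F} (h : ∀ ε : ℝ, 0 < ε → ∃ B, SH B ∧ ‖A - B‖ ≤ ε) : SH A := by
  rw [sh_iff_up]
  intro x ε hε
  obtain ⟨B, hB, hAB⟩ := h (ε / (2 * (‖x‖ + 1))) (by positivity)
  obtain ⟨δ, hδ, k⟩ := (sh_iff_up.1 hB) x (ε / 2) (by positivity)
  refine ⟨δ, hδ, fun t ht => ?_⟩
  have e1 : x + t • A x = (x + t • B x) + t • (A - B) x := by
    rw [_root_.sub_apply]; module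
  rw [e1]
  refine (norm_add_le _ _).trans ?_
  have h1 : ‖t • (A - B) x‖ ≤ ε / 2 * |t| := by
    rw [norm_smul, Real.norm_eq_abs, mul_comm]
    refine mul_le_mul_of_nonneg_right ?_ (abs_nonneg _)
    refine ((A - B).le_opNorm x).trans ?_
    calc ‖A - B‖ * ‖x‖ ≤ ε / (2 * (‖x‖ + 1)) * (‖x‖ + 1) := by
          gcongr
          linarith
      _ = ε / 2 := by field_simp
  have := k t ht
  linarith

/-- conjugation by an isometry -/
noncomputable def cj (U : F ≃ₗᵢ[ℝ] F) (A : F →L[ℝ] F) : F →L[ℝ] F :=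
  (U.toContinuousLinearEquiv : F →L[ℝ] F) ∘L A ∘L (U.symm.toContinuousLinearEquiv : F →L[ℝ] F)

theorem cj_apply (U : F ≃ₗᵢ[ℝ] F) (A : F →L[ℝ] F) (x : F) : cj U A x = U (A (U.symm x)) := rfl

theorem SH.cj {A : F →L[ℝ] F} (hA : SH A) (U : F ≃ₗᵢ[ℝ] F) : SH (cj U A) := by
  intro x
  have h1 := hA (U.symm x)
  have h2 : (fun t : ℝ => ‖x + t • BM.cj U A x‖) = fun t : ℝ => ‖U.symm x + t • A (U.symm x)‖ := by
    funext t
    rw [← U.norm_map (U.symm x + t • A (U.symm x)), map_add, map_smul, U.apply_symm_apply, cj_apply]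
  rw [h2]
  exact h1

variable (F) in
/-- the space of skew-Hermitian operators -/
def shS : Submodule ℝ (F →L[ℝ] F) where
  carrier := {A | SH A}
  add_mem' := fun h1 h2 => SH.add h1 h2
  zero_mem' := sh_zero
  smul_mem' := fun c _ h => SH.smul h c

theorem mem_shS {A : F →L[ℝ] F} : A ∈ shS F ↔ SH A := Iff.rfl

theorem isClosed_shS : IsClosed (shS F : Set (F →L[ℝ] F)) := by
  rw [← isSeqClosed_iff_isClosed]
  intro u A hu hA
  refine sh_of_approx (fun ε hε => ?_)
  have h1 := (tendsto_iff_norm_sub_tendsto_zero.1 hA).eventually (gt_mem_nhds hε)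
  obtain ⟨n, hn⟩ := h1.exists
  refine ⟨u n, hu n, ?_⟩
  rw [norm_sub_rev]
  exact hn.le

end Basic

section Exp

variable {F : Type*} [NormedAddCommGroup F] [NormedSpace ℝ F] [CompleteSpace F]

open NormedSpace

theorem exp_deriv (A : F →L[ℝ] F) (t : ℝ) :
    HasDerivAt (fun s : ℝ => exp (s • A)) (exp (t • A) * A) t :=
  hasDerivAt_exp_smul_const A t

theorem exp_comm' (A : F →L[ℝ] F) (s t : ℝ) : exp ((s + t) • A) = exp (s • A) * exp (t • A) := by
  let _ : NormedAlgebra ℚ (F →L[ℝ] F) := .restrictScalars ℚ ℝ (F →L[ℝ] F)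
  rw [add_smul]
  exact exp_add_of_commute ((Commute.refl A).smul_left s |>.smul_right t)

theorem exp_neg_mul (A : F →L[ℝ] F) (t : ℝ) : exp (t • A) * exp ((-t) • A) = 1 := by
  rw [← exp_comm', add_neg_cancel, zero_smul, exp_zero]

theorem exp_mul_neg (A : F →L[ℝ] F) (t : ℝ) : exp ((-t) • A) * exp (t • A) = 1 := by
  rw [← exp_comm', neg_add_cancel, zero_smul, exp_zero]

theorem SH.exp_norm {A : F →L[ℝ] F} (hA : SH A) (t : ℝ) (x : F) : ‖exp (t • A) x‖ = ‖x‖ := by
  have key : ∀ t : ℝ, HasDerivAt (fun s : ℝ => ‖exp (s • A) x‖) 0 t := by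
    intro t
    set y := exp (t • A) x with hy
    -- derivative at zero of `exp (s A) y - (y + s A y)`
    have h1 : HasDerivAt (fun s : ℝ => exp (s • A) y) (A y) 0 := by
      have := (exp_deriv A 0).clm_apply (hasDerivAt_const (0 : ℝ) y)
      simpa using this
    have h2 : HasDerivAt (fun s : ℝ => ‖exp (s • A) y‖) 0 0 := by
      rw [hasDerivAt_iff_isLittleO, isLittleO_iff]
      intro c hc
      have h3 := hasDerivAt_iff_isLittleO.1 h1
      rw [isLittleO_iff] at h3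
      have h4 := h3 (half_pos hc)
      obtain ⟨δ, hδ, k⟩ := hA.lower y (c / 2) (half_pos hc)
      filter_upwards [h4, Metric.ball_mem_nhds (0 : ℝ) hδ] with s hs hs2
      rw [Metric.mem_ball, Real.dist_eq, sub_zero] at hs2
      simp only [zero_smul, exp_zero, one_apply_eq_self, sub_zero,
        Real.norm_eq_abs] at hs
      simp only [zero_smul, exp_zero, one_apply_eq_self, sub_zero, smul_zero,
        Real.norm_eq_abs]
      have k1 := k s hs2.le
      have k2 : |‖exp (s • A) y‖ - ‖y + s • A y‖| ≤ c / 2 * |s| := by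
        refine (abs_norm_sub_norm_le _ _).trans ?_
        rwa [sub_add_eq_sub_sub]
      have : ‖exp (s • A) y‖ - ‖y‖ = (‖exp (s • A) y‖ - ‖y + s • A y‖) + (‖y + s • A y‖ - ‖y‖) := by
        ring
      rw [this]
      refine (abs_add_le _ _).trans ?_
      linarith
    have h5 : (fun s : ℝ => ‖exp (s • A) x‖) = fun s : ℝ => ‖exp ((s - t) • A) y‖ := by
      funext s
      rw [hy, ← mul_apply_eq_comp, ← exp_comm', sub_add_cancel]
    rw [h5]
    have h6 : HasDerivAt (fun s : ℝ => s - t) 1 t := (hasDerivAt_id t).sub_const t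
    have h7 : HasDerivAt (fun s : ℝ => ‖exp (s • A) y‖) 0 (t - t) := by rwa [sub_self]
    have := HasDerivAt.comp (h := fun s : ℝ => s - t) (h₂ := fun s : ℝ => ‖exp (s • A) y‖) t h7 h6
    simpa [Function.comp_def] using this
  have h8 := is_const_of_deriv_eq_zero (f := fun s : ℝ => ‖exp (s • A) x‖)
    (fun s => (key s).differentiableAt) (fun s => (key s).deriv) t 0
  simpa using h8

/-- the isometry `exp (t A)` -/
noncomputable def expI (A : F →L[ℝ] F) (hA : SH A) (t : ℝ) : F ≃ₗᵢ[ℝ] F where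
  toFun x := exp (t • A) x
  invFun x := exp ((-t) • A) x
  map_add' := map_add _
  map_smul' := map_smul _
  left_inv x := by
    show exp ((-t) • A) (exp (t • A) x) = x
    rw [← mul_apply_eq_comp, exp_mul_neg, one_apply_eq_self]
  right_inv x := by
    show exp (t • A) (exp ((-t) • A) x) = x
    rw [← mul_apply_eq_comp, exp_neg_mul, one_apply_eq_self]
  norm_map' x := hA.exp_norm t x

theorem expI_apply (A : F →L[ℝ] F) (hA : SH A) (t : ℝ) (x : F) :
    expI A hA t x = exp (t • A) x := rfl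

theorem expI_symm_apply (A : F →L[ℝ] F) (hA : SH A) (t : ℝ) (x : F) :
    (expI A hA t).symm x = exp ((-t) • A) x := rfl

theorem SH.bracket {A B : F →L[ℝ] F} (hA : SH A) (hB : SH B) : SH (A * B - B * A) := by
  have h1 : HasDerivAt (fun s : ℝ => exp (s • A) * B * exp ((-s) • A)) (A * B - B * A) 0 := by
    have a1 := exp_deriv A 0
    have a2 : HasDerivAt (fun s : ℝ => exp ((-s) • A)) (-(exp ((-0 : ℝ) • A) * A)) 0 := by
      have := (exp_deriv A (-0)).scomp (0 : ℝ) (hasDerivAt_neg (0 : ℝ))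
      exact this.congr_deriv (by simp)
    have a3 := (a1.mul_const B).mul a2
    simp only [neg_zero, zero_smul, exp_zero, one_mul, mul_one, mul_neg] at a3
    rw [sub_eq_add_neg]
    exact a3
  have h2 := hasDerivAt_iff_tendsto_slope.1 h1
  refine isClosed_shS.mem_of_tendsto h2 ?_
  filter_upwards with s
  have e0 : exp ((0 : ℝ) • A) * B * exp ((-0 : ℝ) • A) = B := by
    simp
  have e1 : exp (s • A) * B * exp ((-s) • A) = BM.cj (expI A hA s) B := by
    ext x; rfl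
  rw [slope_def_module, e1, e0]
  exact (shS F).smul_mem _ ((shS F).sub_mem (hB.cj _) hB)

end Exp

end Pool.TH328.BM
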